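import Pool.Agent.H22S.Stm

/-!
# SR-CU1 (helper63): the very free curve on the first equation
-/

set_option autoImplicit false

namespace Pool.Agent.H22S

open MvPolynomial

namespace CU1

/-- the form `a` -/
noncomputable def aa (K : Type) [Field K] (m : ℕ) : MvPolynomial (Fin 2) K :=
  X 1 ^ (m + 2) + X 0 ^ (m + 1) * X 1

/-- the plane curve -/
noncomputable def f3 (K : Type) [Field K] (m : ℕ) : Fin 3 → MvPolynomial (Fin 2) K :=
  ![X 0 * aa K m, X 1 * aa K m, - X 0 ^ (m + 3)]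

/-- the first section -/
noncomputable def ta (K : Type) [Field K] (m : ℕ) : Fin 3 → MvPolynomial (Fin 2) K :=
  ![aa K m - X 0 ^ (m + 1) * X 1, - (X 0 ^ m * X 1 ^ 2), - X 0 ^ (m + 2)]

/-- the second section -/
noncomputable def tb (K : Type) [Field K] (m : ℕ) : Fin 3 → MvPolynomial (Fin 2) K :=
  ![X 0 ^ (m + 2), aa K m + X 1 * X 0 ^ (m + 1), 0]

/-- the completing section -/
noncomputable def rh (K : Type) [Field K] (m : ℕ) : Fin 3 → MvPolynomial (Fin 2) K :=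
  ![0, X 0 ^ (m + 2), 0]

/-- the reduced gradient -/
noncomputable def AA (K : Type) [Field K] (m : ℕ) : Fin 3 → MvPolynomial (Fin 2) K :=
  ![X 0 ^ (m + 2) * aa K m + X 0 ^ (2 * m + 3) * X 1, - X 0 ^ (2 * m + 4), aa K m ^ 2]

variable {K : Type} [Field K]

theorem hX (i : Fin 2) (n : ℕ) : (X i ^ n : MvPolynomial (Fin 2) K).IsHomogeneous n :=
  isHomogeneous_X_pow i n

theorem haa (m : ℕ) : (aa K m).IsHomogeneous (m + 2) := by
  unfold aa
  exact (hX 1 (m + 2)).add ((hX 0 (m + 1)).mul (isHomogeneous_X K 1))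

theorem hf3 (m : ℕ) (i : Fin 3) : (f3 K m i).IsHomogeneous (m + 3) := by
  have h : ∀ j : Fin 2, (X j * aa K m).IsHomogeneous (m + 3) := fun j => by
    have h1 := (isHomogeneous_X K j).mul (haa (K := K) m)
    rwa [show 1 + (m + 2) = m + 3 by omega] at h1
  fin_cases i
  · exact h 0
  · exact h 1
  · exact (hX 0 (m + 3)).neg

theorem hta (m : ℕ) (i : Fin 3) : (ta K m i).IsHomogeneous (m + 2) := by
  fin_cases i
  · exact (haa m).sub ((hX 0 (m + 1)).mul (isHomogeneous_X K 1))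
  · exact ((hX 0 m).mul (hX 1 2)).neg
  · exact (hX 0 (m + 2)).neg

theorem htb (m : ℕ) (i : Fin 3) : (tb K m i).IsHomogeneous (m + 2) := by
  fin_cases i
  · exact hX 0 (m + 2)
  · refine (haa m).add ?_
    have h1 := (isHomogeneous_X K (1 : Fin 2)).mul (hX (K := K) 0 (m + 1))
    rwa [show 1 + (m + 1) = m + 2 by omega] at h1
  · exact isHomogeneous_zero _ _ _

theorem hrh (m : ℕ) (i : Fin 3) : (rh K m i).IsHomogeneous (m + 2) := by
  fin_cases i
  · exact isHomogeneous_zero _ _ _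
  · exact hX 0 (m + 2)
  · exact isHomogeneous_zero _ _ _

theorem ota (m : ℕ) : ∑ i, ta K m i * AA K m i = 0 := by
  rw [Fin.sum_univ_three]
  simp only [ta, AA, Matrix.cons_val_zero, Matrix.cons_val_one, Matrix.cons_val]
  ring

theorem otb (m : ℕ) : ∑ i, tb K m i * AA K m i = 0 := by
  rw [Fin.sum_univ_three]
  simp only [tb, AA, Matrix.cons_val_zero, Matrix.cons_val_one, Matrix.cons_val]
  ring

theorem orh (m : ℕ) : ∑ i, rh K m i * AA K m i = - (X 0 ^ (m + 2) * (X 0 ^ (m + 2)) ^ 2) := by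
  rw [Fin.sum_univ_three]
  simp only [rh, AA, Matrix.cons_val_zero, Matrix.cons_val_one, Matrix.cons_val]
  ring

theorem eaa (m : ℕ) (q : Fin 2 → K) : eval q (aa K m) = q 1 ^ (m + 2) + q 0 ^ (m + 1) * q 1 := by
  simp [aa]

theorem q_ne (q : Fin 2 → K) (hq : q ≠ 0) (h : q 0 = 0) : q 1 ≠ 0 := by
  intro h1
  apply hq
  funext i
  fin_cases i
  · exact h
  · exact h1

/-- the tangent vectors in the plane -/
theorem plane1 (m : ℕ) (q : Fin 2 → K) (hq : q ≠ 0) (v : Fin 3 → K)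
    (hv : ∑ i, v i * eval q (AA K m i) = 0) :
    ∃ c c₁ c₂ : K, ∀ i, v i = c * eval q (f3 K m i) + c₁ * eval q (ta K m i) + c₂ * eval q (tb K m i) := by
  have hA0 : eval q (AA K m 0) = q 0 ^ (m + 2) * eval q (aa K m) + q 0 ^ (2 * m + 3) * q 1 := by
    simp [AA]
  have hA1 : eval q (AA K m 1) = - q 0 ^ (2 * m + 4) := by
    simp [AA]
  have hA2 : eval q (AA K m 2) = eval q (aa K m) ^ 2 := by
    simp [AA]
  have ha0 : eval q (ta K m 0) = eval q (aa K m) - q 0 ^ (m + 1) * q 1 := by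
    simp [ta]
  have ha1 : eval q (ta K m 1) = - (q 0 ^ m * q 1 ^ 2) := by
    simp [ta]
  have ha2 : eval q (ta K m 2) = - q 0 ^ (m + 2) := by
    simp [ta]
  have hb0 : eval q (tb K m 0) = q 0 ^ (m + 2) := by
    simp [tb]
  have hb1 : eval q (tb K m 1) = eval q (aa K m) + q 1 * q 0 ^ (m + 1) := by
    simp [tb]
  have hb2 : eval q (tb K m 2) = 0 := by
    simp [tb]
  rw [Fin.sum_univ_three, hA0, hA1, hA2] at hv
  by_cases hs : q 0 = 0
  · have ht := q_ne q hq hs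
    have haq : eval q (aa K m) = q 1 ^ (m + 2) := by
      rw [eaa, hs]; simp
    have haq0 : eval q (aa K m) ≠ 0 := by
      rw [haq]; exact pow_ne_zero _ ht
    have hv2 : v 2 = 0 := by
      rw [hs] at hv
      have h2 : v 2 * eval q (aa K m) ^ 2 = 0 := by
        rw [← hv]
        simp
      rcases mul_eq_zero.mp h2 with h | h
      · exact h
      · exact absurd h (pow_ne_zero _ haq0)
    refine ⟨0, v 0 / eval q (aa K m), (v 1 - v 0 / eval q (aa K m) * eval q (ta K m 1)) / eval q (aa K m),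
      fun i => ?_⟩
    fin_cases i
    · show v 0 = 0 * _ + _ * eval q (ta K m 0) + _ * eval q (tb K m 0)
      rw [ha0, hb0, hs]
      simp [haq0]
    · show v 1 = 0 * _ + _ * eval q (ta K m 1) + _ * eval q (tb K m 1)
      rw [hb1, hs]
      simp [haq0]
    · show v 2 = 0 * _ + _ * eval q (ta K m 2) + _ * eval q (tb K m 2)
      rw [ha2, hb2, hv2, hs]
      simp
  · have hsm : q 0 ^ (m + 2) ≠ 0 := pow_ne_zero _ hs
    have hs4 : q 0 ^ (2 * m + 4) ≠ 0 := pow_ne_zero _ hs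
    obtain ⟨c₁, hc₁⟩ : ∃ c₁ : K, c₁ * - q 0 ^ (m + 2) = v 2 :=
      ⟨v 2 / - q 0 ^ (m + 2), div_mul_cancel₀ _ (neg_ne_zero.mpr hsm)⟩
    obtain ⟨c₂, hc₂⟩ : ∃ c₂ : K, c₂ * q 0 ^ (m + 2) = v 0 - c₁ * (eval q (aa K m) - q 0 ^ (m + 1) * q 1) :=
      ⟨_ / q 0 ^ (m + 2), div_mul_cancel₀ _ hsm⟩
    refine ⟨0, c₁, c₂, fun i => ?_⟩
    fin_cases i
    · show v 0 = 0 * _ + _ * eval q (ta K m 0) + _ * eval q (tb K m 0)
      rw [ha0, hb0, hc₂]
      ring
    · show v 1 = 0 * _ + _ * eval q (ta K m 1) + _ * eval q (tb K m 1)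
      rw [ha1, hb1]
      apply mul_right_cancel₀ hs4
      have hv0 : v 0 = c₂ * q 0 ^ (m + 2) + c₁ * (eval q (aa K m) - q 0 ^ (m + 1) * q 1) := by
        rw [hc₂]; ring
      rw [hv0, ← hc₁] at hv
      linear_combination (-1 : K) * hv
    · show v 2 = 0 * _ + _ * eval q (ta K m 2) + _ * eval q (tb K m 2)
      rw [ha2, hb2, hc₁]
      ring

/-- all vectors in the plane at the zeros of `a` -/
theorem plane2 (m : ℕ) (q : Fin 2 → K) (hq : q ≠ 0) (ha : eval q (aa K m) = 0) :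
    q 0 ≠ 0 ∧ eval q (X 0 ^ (m + 2) : MvPolynomial (Fin 2) K) ≠ 0 ∧ ∀ v : Fin 3 → K, ∃ c c₁ c₂ c₃ : K, ∀ i,
      v i = c * eval q (f3 K m i) + c₁ * eval q (ta K m i) + c₂ * eval q (tb K m i) +
        c₃ * eval q (rh K m i) := by
  have hs : q 0 ≠ 0 := by
    intro hs
    have ht := q_ne q hq hs
    rw [eaa, hs] at ha
    simp [ht] at ha
  have hsm : q 0 ^ (m + 2) ≠ 0 := pow_ne_zero _ hs
  have hs3 : - q 0 ^ (m + 3) ≠ 0 := neg_ne_zero.mpr (pow_ne_zero _ hs)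
  refine ⟨hs, by simpa using hs, fun v => ?_⟩
  have h0 : eval q (f3 K m 0) = 0 := by simp [f3, ha]
  have h1 : eval q (f3 K m 1) = 0 := by simp [f3, ha]
  have h2 : eval q (f3 K m 2) = - q 0 ^ (m + 3) := by simp [f3]
  have hb0 : eval q (tb K m 0) = q 0 ^ (m + 2) := by
    simp [tb]
  have hb2 : eval q (tb K m 2) = 0 := by
    simp [tb]
  have hr0 : eval q (rh K m 0) = 0 := by simp [rh]
  have hr1 : eval q (rh K m 1) = q 0 ^ (m + 2) := by simp [rh]
  have hr2 : eval q (rh K m 2) = 0 := by simp [rh]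
  obtain ⟨c₂, hc₂⟩ : ∃ c₂ : K, c₂ * q 0 ^ (m + 2) = v 0 := ⟨_ / q 0 ^ (m + 2), div_mul_cancel₀ _ hsm⟩
  obtain ⟨c₃, hc₃⟩ : ∃ c₃ : K, c₃ * q 0 ^ (m + 2) = v 1 - c₂ * eval q (tb K m 1) :=
    ⟨_ / q 0 ^ (m + 2), div_mul_cancel₀ _ hsm⟩
  obtain ⟨c, hc⟩ : ∃ c : K, c * - q 0 ^ (m + 3) = v 2 := ⟨_ / - q 0 ^ (m + 3), div_mul_cancel₀ _ hs3⟩
  refine ⟨c, 0, c₂, c₃, fun i => ?_⟩
  fin_cases i
  · show v 0 = c * eval q (f3 K m 0) + 0 * _ + _ * eval q (tb K m 0) + _ * eval q (rh K m 0)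
    rw [h0, hb0, hr0, hc₂]
    ring
  · show v 1 = c * eval q (f3 K m 1) + 0 * _ + _ * eval q (tb K m 1) + _ * eval q (rh K m 1)
    rw [h1, hr1, hc₃]
    ring
  · show v 2 = c * eval q (f3 K m 2) + 0 * _ + _ * eval q (tb K m 2) + _ * eval q (rh K m 2)
    rw [h2, hb2, hr2, hc]
    ring

/-- the curve -/
noncomputable def ff (K : Type) [Field K] (m N : ℕ) : Ix N → MvPolynomial (Fin 2) K :=
  Sum.elim (f3 K m) (fun _ => 0)

theorem wpow (m k : ℕ) (hk : k ≤ m + 2) (s a : MvPolynomial (Fin 2) K) :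
    (- s ^ (m + 3)) ^ (m + 2 - k) * (s * a) ^ k = s ^ (m + 2) * (- s ^ (m + 2)) ^ (m + 2 - k) * a ^ k := by
  obtain ⟨j, hj⟩ : ∃ j, m + 2 = k + j := ⟨m + 2 - k, by omega⟩
  have h1 : m + 2 - k = j := by omega
  rw [h1]
  have h2 : (- s ^ (m + 3)) = (- s ^ (m + 2)) * s := by ring
  rw [h2, mul_pow, mul_pow]
  have h3 : s ^ (m + 2) = s ^ k * s ^ j := by rw [hj, pow_add]
  rw [h3]
  ring

end CU1

open CU1 in
theorem t_CU1 (h1 : S_DER1) (h2 : S_VFA) : S_CU1 := by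
  intro k K _ _ _ d N hd hN hdK
  obtain ⟨m, rfl⟩ : ∃ m, d = m + 3 := ⟨d - 3, by omega⟩
  have hm2 : m + 3 - 2 = m + 1 := by omega
  have hm1 : m + 3 - 1 = m + 2 := by omega
  have hm3 : m + 3 - 3 = m := by omega
  obtain ⟨e0, e1, e2, e3, e4⟩ := h1 k (MvPolynomial (Fin 2) K) (m + 3) N hd hN (ff K m N)
  simp only [hm1, hm2, hm3] at e0 e1 e2 e3 e4
  have g0 : ff K m N (Sum.inl 0) = X 0 * aa K m := rfl
  have g1 : ff K m N (Sum.inl 1) = X 1 * aa K m := rfl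
  have g2 : ff K m N (Sum.inl 2) = - X 0 ^ (m + 3) := rfl
  have gw : ∀ j : Fin N, ff K m N (Sum.inr j) = 0 := fun _ => rfl
  have c3 : ((m + 3 : ℕ) : MvPolynomial (Fin 2) K) = 1 := by
    rw [← map_natCast (C : K →+* MvPolynomial (Fin 2) K), hdK, map_one]
  have c1 : ((m + 1 : ℕ) : MvPolynomial (Fin 2) K) = -1 := by
    push_cast at c3 ⊢
    linear_combination c3
  have c2 : ((m + 2 : ℕ) : MvPolynomial (Fin 2) K) = 0 := by
    push_cast at c3 ⊢
    linear_combination c3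
  have haa' : aa K m = X 1 ^ (m + 2) + X 0 ^ (m + 1) * X 1 := rfl
  have E0 : aeval (ff K m N) (F1 k (m + 3) N) = 0 := by
    rw [e0, g0, g1, g2]
    simp only [gw]
    rw [Finset.sum_eq_zero (fun j _ => by split_ifs <;> simp)]
    have : (X 0 * aa K m) ^ (m + 3) + - X 0 ^ (m + 3) * ((X 1 * aa K m) ^ (m + 2) +
        (X 0 * aa K m) ^ (m + 1) * (X 1 * aa K m)) + 0 =
        X 0 ^ (m + 3) * aa K m ^ (m + 2) * (aa K m - (X 1 ^ (m + 2) + X 0 ^ (m + 1) * X 1)) := by ring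
    rw [this, ← haa']
    ring
  have E1 : aeval (ff K m N) (pderiv (Sum.inl 0) (F1 k (m + 3) N)) = aa K m ^ (m + 1) * AA K m 0 := by
    rw [e1, g0, g1, g2]
    simp only [gw]
    rw [Finset.sum_eq_zero (fun j _ => by split_ifs <;> simp), c3, c1]
    show _ = aa K m ^ (m + 1) * (X 0 ^ (m + 2) * aa K m + X 0 ^ (2 * m + 3) * X 1)
    ring
  have E2 : aeval (ff K m N) (pderiv (Sum.inl 1) (F1 k (m + 3) N)) = aa K m ^ (m + 1) * AA K m 1 := by
    rw [e2, g0, g1, g2]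
    simp only [gw]
    rw [Finset.sum_eq_zero (fun j _ => by split_ifs <;> simp), c2]
    show _ = aa K m ^ (m + 1) * (- X 0 ^ (2 * m + 4))
    ring
  have E3 : aeval (ff K m N) (pderiv (Sum.inl 2) (F1 k (m + 3) N)) = aa K m ^ (m + 1) * AA K m 2 := by
    rw [e3, g0, g1, g2]
    simp only [gw]
    rw [Finset.sum_eq_zero (fun j _ => by split_ifs <;> simp)]
    show _ = aa K m ^ (m + 1) * (aa K m ^ 2)
    have : (X 1 * aa K m) ^ (m + 2) + (X 0 * aa K m) ^ (m + 1) * (X 1 * aa K m) + 0 =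
      aa K m ^ (m + 2) * (X 1 ^ (m + 2) + X 0 ^ (m + 1) * X 1) := by ring
    rw [this, ← haa']
    ring
  have E4 : ∀ j : Fin N, aeval (ff K m N) (pderiv (Sum.inr j) (F1 k (m + 3) N)) =
      if j.1 < m + 1 then X 0 ^ (m + 2) * (- X 0 ^ (m + 2)) ^ (m + 2 - j.1) * aa K m ^ j.1 else 0 := by
    intro j
    rw [e4 j, g0, g2]
    simp only [gw]
    rw [Finset.sum_eq_zero (fun j _ => by split_ifs <;> simp), add_zero]
    split_ifs with hj
    · rw [wpow m j.1 (by omega)]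
      simp
    · simp
  refine ⟨m + 3, ff K m N, by omega, ?_, ?_, E0, ?_⟩
  · rintro (i | j)
    · exact hf3 m i
    · exact isHomogeneous_zero _ _ _
  · intro q hq
    by_contra hcon
    push Not at hcon
    have k0 := hcon (Sum.inl 0)
    have k1 := hcon (Sum.inl 1)
    have k2 := hcon (Sum.inl 2)
    rw [g0] at k0
    rw [g1] at k1
    rw [g2] at k2
    have hs : q 0 = 0 := by
      simpa using k2
    have ht := q_ne q hq hs
    rw [map_mul, eaa, hs] at k1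
    simp [ht] at k1
  · intro q hq v hv
    have hv' : (∑ i : Fin 3, v (Sum.inl i) * eval q (aa K m ^ (m + 3 - 2) * AA K m i)) +
        (∑ k : Fin N, v (Sum.inr k) * eval q (if k.1 < m + 3 - 2 then
          X 0 ^ (m + 3 - 1) * (-(X 0 ^ (m + 2))) ^ (m + 3 - 1 - k.1) * aa K m ^ k.1 else 0)) = 0 := by
      simp only [hm1, hm2]
      rw [Fintype.sum_sum_type, Fin.sum_univ_three, E1, E2, E3] at hv
      simp only [E4] at hv
      rw [Fin.sum_univ_three]
      exact hv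
    obtain ⟨g, hg, hg0, c, hc1, hc2⟩ := h2 K (m + 3) N hd hN (aa K m) (X 0 ^ (m + 2)) (f3 K m) (ta K m) (tb K m)
      (rh K m) (AA K m) (haa m) (hX 0 (m + 2)) (hta m) (htb m) (hrh m) (ota m) (otb m) (orh m) q hq
      (plane1 m q hq) (plane2 m q hq) v hv'
    refine ⟨g, hg, ?_, c, ?_⟩
    · rw [Fintype.sum_sum_type, Fin.sum_univ_three, E1, E2, E3]
      simp only [E4]
      simp only [hm1, hm2] at hg0
      rw [Fin.sum_univ_three] at hg0
      exact hg0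
    · rintro (i | j)
      · exact hc1 i
      · rw [gw, map_zero, mul_zero, add_zero]
        exact hc2 j

end Pool.Agent.H22S
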