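import Pool.Agent.H22S.Stm

/-!
Piece CU2 of project SR (helper45).
-/

set_option autoImplicit false

namespace Pool.Agent.H22S

open MvPolynomial

namespace CU2

variable {K : Type} [Field K]

/-- `a` -/
noncomputable def pa (K : Type) [Field K] (m : ℕ) : MvPolynomial (Fin 2) K := X 0 ^ (m + 2) + X 1 ^ (m + 2)

/-- `β` -/
noncomputable def pb (K : Type) [Field K] (m : ℕ) : MvPolynomial (Fin 2) K := X 0 ^ (m + 1) * X 1

/-- the curve in the plane -/
noncomputable def pf (K : Type) [Field K] (m : ℕ) : Fin 3 → MvPolynomial (Fin 2) K :=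
  ![X 0 * pa K m, X 1 * pa K m, -(X 0 ^ (m + 2) * X 1)]

/-- the derivatives -/
noncomputable def pA (K : Type) [Field K] (m : ℕ) : Fin 3 → MvPolynomial (Fin 2) K :=
  ![-(X 0 ^ (m + 1) * X 1 ^ (m + 3)), X 0 ^ (m + 2) * (X 0 ^ (m + 2) + 2 * X 1 ^ (m + 2)), pa K m ^ 2]

/-- `φ` -/
noncomputable def pp (K : Type) [Field K] (m : ℕ) : Fin 3 → MvPolynomial (Fin 2) K :=
  ![X 1 ^ (m + 1), -(X 0 ^ (m + 1)), X 0 ^ (m + 1)]

/-- `ρ` -/
noncomputable def pr (K : Type) [Field K] (m : ℕ) : Fin 3 → MvPolynomial (Fin 2) K :=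
  ![-(2 * (X 0 ^ (m + 1) * X 1)), -(X 0 ^ m * X 1 ^ 2), 0]

/-- the curve -/
noncomputable def cf (K : Type) [Field K] (m N : ℕ) : Ix N → MvPolynomial (Fin 2) K :=
  Sum.elim (pf K m) (fun _ => 0)

theorem cf_l (m N : ℕ) (i : Fin 3) : cf K m N (Sum.inl i) = pf K m i := rfl

theorem cf_r (m N : ℕ) (k : Fin N) : cf K m N (Sum.inr k) = 0 := rfl

theorem cast_m1 (m : ℕ) (h : ((m + 3 : ℕ) : K) = 0) :
    (((m + 2 : ℕ) : ℕ) : MvPolynomial (Fin 2) K) = -1 := by
  have h1 : ((m + 3 : ℕ) : MvPolynomial (Fin 2) K) = 0 := by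
    rw [← map_natCast (C : K →+* MvPolynomial (Fin 2) K), h, map_zero]
  have h2 : ((m + 3 : ℕ) : MvPolynomial (Fin 2) K) = ((m + 2 : ℕ) : MvPolynomial (Fin 2) K) + 1 := by
    push_cast
    ring
  rw [h2] at h1
  exact eq_neg_of_add_eq_zero_left h1

theorem hX (i : Fin 2) (n : ℕ) : ((X i : MvPolynomial (Fin 2) K) ^ n).IsHomogeneous n := by
  have := (isHomogeneous_X K i).pow n
  rwa [one_mul] at this

theorem hX1 (i : Fin 2) : (X i : MvPolynomial (Fin 2) K).IsHomogeneous 1 := isHomogeneous_X K i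

theorem hpa (m : ℕ) : (pa K m).IsHomogeneous (m + 2) := (hX 0 _).add (hX 1 _)

theorem hpb (m : ℕ) : (pb K m).IsHomogeneous (m + 2) := (hX 0 _).mul (hX1 1)

theorem hpf (m : ℕ) (i : Fin 3) : (pf K m i).IsHomogeneous (m + 3) := by
  fin_cases i
  · have := (hX1 (K := K) 0).mul (hpa m)
    rwa [show 1 + (m + 2) = m + 3 by omega] at this
  · have := (hX1 (K := K) 1).mul (hpa m)
    rwa [show 1 + (m + 2) = m + 3 by omega] at this
  · exact ((hX 0 _).mul (hX1 1)).neg

theorem hpp (m : ℕ) (i : Fin 3) : (pp K m i).IsHomogeneous (m + 1) := by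
  fin_cases i
  · exact hX 1 _
  · exact (hX 0 _).neg
  · exact hX 0 _

theorem hpr (m : ℕ) (i : Fin 3) : (pr K m i).IsHomogeneous (m + 2) := by
  fin_cases i
  · have h2 : (2 : MvPolynomial (Fin 2) K).IsHomogeneous 0 := by
      have := isHomogeneous_C (Fin 2) (2 : K)
      rwa [map_ofNat] at this
    have := (h2.mul ((hX 0 (m + 1)).mul (hX1 1))).neg
    rwa [zero_add] at this
  · exact ((hX 0 _).mul (hX 1 _)).neg
  · exact isHomogeneous_zero _ _ _

theorem span3 (f φ v : Fin 3 → K)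
    (h : v 0 * (f 1 * φ 2 - f 2 * φ 1) + v 1 * (f 2 * φ 0 - f 0 * φ 2) + v 2 * (f 0 * φ 1 - f 1 * φ 0) = 0)
    (hn : f 0 * φ 1 - f 1 * φ 0 ≠ 0 ∨ f 1 * φ 2 - f 2 * φ 1 ≠ 0) :
    ∃ c c' : K, ∀ i, v i = c * f i + c' * φ i := by
  rcases hn with hn | hn
  · refine ⟨(v 0 * φ 1 - v 1 * φ 0) / (f 0 * φ 1 - f 1 * φ 0), (f 0 * v 1 - f 1 * v 0) / (f 0 * φ 1 - f 1 * φ 0), ?_⟩
    intro i
    rw [div_mul_eq_mul_div, div_mul_eq_mul_div, ← add_div, eq_div_iff hn]
    fin_cases i
    · simp only [Fin.mk_zero, Fin.zero_eta, Fin.isValue]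
      ring
    · simp only [Fin.mk_one, Fin.isValue]
      ring
    · simp only [Fin.reduceFinMk, Fin.isValue]
      linear_combination h
  · refine ⟨(v 1 * φ 2 - v 2 * φ 1) / (f 1 * φ 2 - f 2 * φ 1), (f 1 * v 2 - f 2 * v 1) / (f 1 * φ 2 - f 2 * φ 1), ?_⟩
    intro i
    rw [div_mul_eq_mul_div, div_mul_eq_mul_div, ← add_div, eq_div_iff hn]
    fin_cases i
    · simp only [Fin.mk_zero, Fin.zero_eta, Fin.isValue]
      linear_combination h
    · simp only [Fin.mk_one, Fin.isValue]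
      ring
    · simp only [Fin.reduceFinMk, Fin.isValue]
      ring

theorem der (h1 : S_DER2) (k : Type) [Field k] [Algebra k K] (m N : ℕ) (hN : m + 1 ≤ N)
    (h : ((m + 3 : ℕ) : K) = 0) :
    aeval (cf K m N) (F2 k (m + 3) N) = 0 ∧
    (∀ i : Fin 3, aeval (cf K m N) (pderiv (Sum.inl i) (F2 k (m + 3) N)) = pa K m ^ (m + 1) * pA K m i) ∧
    ∀ j : Fin N, aeval (cf K m N) (pderiv (Sum.inr j) (F2 k (m + 3) N)) =
      if j.1 < m + 1 then X 0 ^ (m + 2) * (-(pb K m)) ^ (m + 2 - j.1) * pa K m ^ j.1 else 0 := by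
  obtain ⟨d0, d1, d2, d3, d4⟩ := h1 k (MvPolynomial (Fin 2) K) (m + 3) N (by omega) hN (cf K m N)
  have hc := cast_m1 m h
  have hc0 : (((m + 3 : ℕ) : ℕ) : MvPolynomial (Fin 2) K) = 0 := by
    rw [← map_natCast (C : K →+* MvPolynomial (Fin 2) K), h, map_zero]
  simp only [show m + 3 - 1 = m + 2 from rfl, show m + 3 - 2 = m + 1 from rfl, cf_r, cf_l, zero_mul, mul_zero,
    hc, hc0, ne_eq, Nat.add_eq_zero_iff, one_ne_zero, two_ne_zero, OfNat.ofNat_ne_zero, and_false,
    not_false_eq_true, zero_pow, ite_self, Finset.sum_const_zero, add_zero] at d0 d1 d2 d3 d4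
  have f0 : pf K m 0 = X 0 * pa K m := rfl
  have f1 : pf K m 1 = X 1 * pa K m := rfl
  have f2 : pf K m 2 = -(X 0 ^ (m + 2) * X 1) := rfl
  refine ⟨?_, ?_, ?_⟩
  · rw [d0, f0, f1, f2, mul_pow, mul_pow, ← add_mul]
    change -(X 0 ^ (m + 2) * X 1) * (pa K m * pa K m ^ (m + 2)) + _ = _
    ring
  · intro i
    fin_cases i
    · refine d1.trans ?_
      rw [f0, f1, f2]
      change _ = pa K m ^ (m + 1) * -(X 0 ^ (m + 1) * X 1 ^ (m + 3))
      rw [mul_pow]
      have e : pa K m = X 0 ^ (m + 2) + X 1 ^ (m + 2) := rfl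
      generalize pa K m ^ (m + 1) = w
      rw [e]
      ring
    · refine d2.trans ?_
      rw [f0, f1, f2]
      change _ = pa K m ^ (m + 1) * (X 0 ^ (m + 2) * (X 0 ^ (m + 2) + 2 * X 1 ^ (m + 2)))
      rw [mul_pow, mul_pow, pow_succ (pa K m) (m + 1)]
      have e : pa K m = X 0 ^ (m + 2) + X 1 ^ (m + 2) := rfl
      generalize pa K m ^ (m + 1) = w
      rw [e]
      ring
    · refine d3.trans ?_
      rw [f0, f1]
      change _ = pa K m ^ (m + 1) * pa K m ^ 2
      rw [mul_pow, mul_pow, ← add_mul]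
      change pa K m * pa K m ^ (m + 2) = _
      ring
  · intro j
    rw [d4 j]
    by_cases hj : j.1 < m + 1
    · rw [if_pos hj, if_pos hj, f0, f2]
      have e1 : -(X 0 ^ (m + 2) * X 1 : MvPolynomial (Fin 2) K) = X 0 * -(pb K m) := by
        rw [pb]
        ring
      have e2 : (X 0 : MvPolynomial (Fin 2) K) ^ (m + 2) = X 0 ^ (m + 2 - j.1) * X 0 ^ j.1 := by
        rw [← pow_add]
        congr 1
        omega
      rw [e1, e2, mul_pow, mul_pow]
      ring
    · rw [if_neg hj, if_neg hj]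

end CU2

open CU2 in
theorem t_CU2 (h1 : S_DER2) (h2 : S_VFA) : S_CU2 := by
  intro k K _ _ _ d N hd hN hdK
  obtain ⟨m, rfl⟩ := Nat.exists_eq_add_of_le' hd
  have hN' : m + 1 ≤ N := hN
  obtain ⟨D0, D1, D2⟩ := der (K := K) h1 k m N hN' hdK
  have hq01 : ∀ q : Fin 2 → K, q ≠ 0 → q 0 ≠ 0 ∨ q 1 ≠ 0 := by
    intro q hq
    by_contra hcon
    push Not at hcon
    apply hq
    funext i
    fin_cases i
    · exact hcon.1
    · exact hcon.2
  have ea : ∀ q : Fin 2 → K, eval q (pa K m) = q 0 ^ (m + 2) + q 1 ^ (m + 2) := by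
    intro q
    simp only [pa, map_add, map_pow, eval_X]
  have hst : ∀ q : Fin 2 → K, q ≠ 0 → eval q (pa K m) = 0 → q 0 ≠ 0 ∧ q 1 ≠ 0 := by
    intro q hq h
    rw [ea] at h
    have h0 : q 0 = 0 → q 1 = 0 := by
      intro h0
      rw [h0, zero_pow (by omega), zero_add] at h
      exact pow_eq_zero_iff (by omega) |>.1 h
    have h1 : q 1 = 0 → q 0 = 0 := by
      intro h0
      rw [h0, zero_pow (by omega), add_zero] at h
      exact pow_eq_zero_iff (by omega) |>.1 h
    rcases hq01 q hq with h3 | h3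
    · exact ⟨h3, fun h4 => h3 (h1 h4)⟩
    · exact ⟨fun h4 => h3 (h0 h4), h3⟩
  refine ⟨m + 3, cf K m N, by omega, ?_, ?_, D0, ?_⟩
  · intro i
    rcases i with i | j
    · exact hpf m i
    · exact isHomogeneous_zero _ _ _
  · intro q hq
    by_cases ha : eval q (pa K m) = 0
    · obtain ⟨hs, ht⟩ := hst q hq ha
      refine ⟨Sum.inl 2, ?_⟩
      change eval q (-(X 0 ^ (m + 2) * X 1)) ≠ 0
      simp only [map_neg, map_mul, map_pow, eval_X]
      exact neg_ne_zero.2 (mul_ne_zero (pow_ne_zero _ hs) ht)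
    · rcases hq01 q hq with h3 | h3
      · refine ⟨Sum.inl 0, ?_⟩
        change eval q (X 0 * pa K m) ≠ 0
        rw [map_mul, eval_X]
        exact mul_ne_zero h3 ha
      · refine ⟨Sum.inl 1, ?_⟩
        change eval q (X 1 * pa K m) ≠ 0
        rw [map_mul, eval_X]
        exact mul_ne_zero h3 ha
  · intro q hq v hv
    have key := h2 K (m + 3) N hd hN (pa K m) (pb K m) (pf K m) (fun i => X 0 * pp K m i) (fun i => X 1 * pp K m i)
      (pr K m) (pA K m) (hpa m) (hpb m)
      (fun i => by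
        have := (hX1 (K := K) 0).mul (hpp m i)
        rwa [show 1 + (m + 1) = m + 3 - 1 by omega] at this)
      (fun i => by
        have := (hX1 (K := K) 1).mul (hpp m i)
        rwa [show 1 + (m + 1) = m + 3 - 1 by omega] at this)
      (hpr m)
      (by
        rw [Fin.sum_univ_three]
        simp only [pp, pA, pa, Matrix.cons_val_zero, Matrix.cons_val_one, Matrix.cons_val]
        ring)
      (by
        rw [Fin.sum_univ_three]
        simp only [pp, pA, pa, Matrix.cons_val_zero, Matrix.cons_val_one, Matrix.cons_val]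
        ring)
      (by
        rw [Fin.sum_univ_three]
        simp only [pr, pA, pa, pb, Matrix.cons_val_zero, Matrix.cons_val_one, Matrix.cons_val,
          show m + 3 - 1 = m + 2 from rfl]
        ring)
      q hq ?_ ?_ v ?_
    · obtain ⟨g, hg1, hg2, c, hc1, hc2⟩ := key
      refine ⟨g, hg1, ?_, c, ?_⟩
      · rw [Fintype.sum_sum_type, ← hg2]
        congr 1
        · exact Finset.sum_congr rfl (fun i _ => by rw [D1 i]; rfl)
        · exact Finset.sum_congr rfl (fun j _ => by rw [D2 j]; rfl)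
      · intro i
        rcases i with i | j
        · exact hc1 i
        · rw [hc2 j, cf_r, map_zero, mul_zero, add_zero]
    · intro w hw
      rw [Fin.sum_univ_three] at hw
      have hA0 : eval q (pA K m 0) = -(q 0 ^ (m + 1) * q 1 ^ (m + 3)) := by
        change eval q (-(X 0 ^ (m + 1) * X 1 ^ (m + 3))) = _
        simp only [map_neg, map_mul, map_pow, eval_X]
      have hA1 : eval q (pA K m 1) = q 0 ^ (m + 2) * (q 0 ^ (m + 2) + 2 * q 1 ^ (m + 2)) := by
        change eval q (X 0 ^ (m + 2) * (X 0 ^ (m + 2) + 2 * X 1 ^ (m + 2))) = _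
        simp only [map_mul, map_pow, map_add, eval_X, map_ofNat]
      have hA2 : eval q (pA K m 2) = (q 0 ^ (m + 2) + q 1 ^ (m + 2)) ^ 2 := by
        change eval q (pa K m ^ 2) = _
        rw [map_pow, ea]
      rw [hA0, hA1, hA2] at hw
      obtain ⟨c, c', hcc⟩ := span3
        ![q 0 * (q 0 ^ (m + 2) + q 1 ^ (m + 2)), q 1 * (q 0 ^ (m + 2) + q 1 ^ (m + 2)), -(q 0 ^ (m + 2) * q 1)]
        ![q 1 ^ (m + 1), -(q 0 ^ (m + 1)), q 0 ^ (m + 1)] w
        (by
          simp only [Matrix.cons_val_zero, Matrix.cons_val_one, Matrix.cons_val]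
          linear_combination -hw)
        (by
          simp only [Matrix.cons_val_zero, Matrix.cons_val_one, Matrix.cons_val]
          by_cases ha : eval q (pa K m) = 0
          · right
            obtain ⟨hs, ht⟩ := hst q hq ha
            have e : q 1 * (q 0 ^ (m + 2) + q 1 ^ (m + 2)) * q 0 ^ (m + 1) - -(q 0 ^ (m + 2) * q 1) * -(q 0 ^ (m + 1)) =
              q 1 ^ (m + 3) * q 0 ^ (m + 1) := by ring
            rw [e]
            exact mul_ne_zero (pow_ne_zero _ ht) (pow_ne_zero _ hs)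
          · left
            rw [ea] at ha
            have e : q 0 * (q 0 ^ (m + 2) + q 1 ^ (m + 2)) * -(q 0 ^ (m + 1)) -
                q 1 * (q 0 ^ (m + 2) + q 1 ^ (m + 2)) * q 1 ^ (m + 1) = -(q 0 ^ (m + 2) + q 1 ^ (m + 2)) ^ 2 := by ring
            rw [e]
            exact neg_ne_zero.2 (pow_ne_zero _ ha))
      have ef : ∀ i, eval q (pf K m i) = ![q 0 * (q 0 ^ (m + 2) + q 1 ^ (m + 2)),
          q 1 * (q 0 ^ (m + 2) + q 1 ^ (m + 2)), -(q 0 ^ (m + 2) * q 1)] i := by
        intro i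
        fin_cases i
        · change eval q (X 0 * pa K m) = q 0 * (q 0 ^ (m + 2) + q 1 ^ (m + 2))
          rw [map_mul, eval_X, ea]
        · change eval q (X 1 * pa K m) = q 1 * (q 0 ^ (m + 2) + q 1 ^ (m + 2))
          rw [map_mul, eval_X, ea]
        · change eval q (-(X 0 ^ (m + 2) * X 1)) = -(q 0 ^ (m + 2) * q 1)
          simp only [map_neg, map_mul, map_pow, eval_X]
      have ep : ∀ i, eval q (pp K m i) = ![q 1 ^ (m + 1), -(q 0 ^ (m + 1)), q 0 ^ (m + 1)] i := by
        intro i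
        fin_cases i
        · change eval q (X 1 ^ (m + 1)) = q 1 ^ (m + 1)
          simp only [map_pow, eval_X]
        · change eval q (-(X 0 ^ (m + 1))) = -(q 0 ^ (m + 1))
          simp only [map_neg, map_pow, eval_X]
        · change eval q (X 0 ^ (m + 1)) = q 0 ^ (m + 1)
          simp only [map_pow, eval_X]
      rcases hq01 q hq with h3 | h3
      · refine ⟨c, c' / q 0, 0, fun i => ?_⟩
        rw [hcc i, map_mul, eval_X, ← ef, ← ep]
        field_simp
        ring
      · refine ⟨c, 0, c' / q 1, fun i => ?_⟩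
        rw [hcc i, map_mul, map_mul, eval_X, eval_X, ← ef, ← ep]
        field_simp
        ring
    · intro ha
      obtain ⟨hs, ht⟩ := hst q hq ha
      refine ⟨hs, ?_, ?_⟩
      · change eval q (X 0 ^ (m + 1) * X 1) ≠ 0
        simp only [map_mul, map_pow, eval_X]
        exact mul_ne_zero (pow_ne_zero _ hs) ht
      · intro w
        rw [ea] at ha
        have hf0 : eval q (pf K m 0) = 0 := by
          change eval q (X 0 * pa K m) = 0
          rw [map_mul, ea, ha, mul_zero]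
        have hf1 : eval q (pf K m 1) = 0 := by
          change eval q (X 1 * pa K m) = 0
          rw [map_mul, ea, ha, mul_zero]
        have hf2 : eval q (pf K m 2) = -(q 0 ^ (m + 2) * q 1) := by
          change eval q (-(X 0 ^ (m + 2) * X 1)) = -(q 0 ^ (m + 2) * q 1)
          simp only [map_neg, map_mul, map_pow, eval_X]
        have hp0 : eval q (pp K m 0) = q 1 ^ (m + 1) := by
          change eval q (X 1 ^ (m + 1)) = q 1 ^ (m + 1)
          simp only [map_pow, eval_X]
        have hp1 : eval q (pp K m 1) = -(q 0 ^ (m + 1)) := by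
          change eval q (-(X 0 ^ (m + 1))) = -(q 0 ^ (m + 1))
          simp only [map_neg, map_pow, eval_X]
        have hp2 : eval q (pp K m 2) = q 0 ^ (m + 1) := by
          change eval q (X 0 ^ (m + 1)) = q 0 ^ (m + 1)
          simp only [map_pow, eval_X]
        have hr0 : eval q (pr K m 0) = -(2 * (q 0 ^ (m + 1) * q 1)) := by
          change eval q (-(2 * (X 0 ^ (m + 1) * X 1))) = _
          simp only [map_neg, map_mul, map_pow, eval_X, map_ofNat]
        have hr1 : eval q (pr K m 1) = -(q 0 ^ m * q 1 ^ 2) := by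
          change eval q (-(X 0 ^ m * X 1 ^ 2)) = _
          simp only [map_neg, map_mul, map_pow, eval_X]
        have hr2 : eval q (pr K m 2) = 0 := by
          change eval q (0 : MvPolynomial (Fin 2) K) = 0
          exact map_zero _
        set s := q 0 with hs0
        set t := q 1 with ht0
        have hΔ : t ^ (m + 1) * -(s ^ m * t ^ 2) - -(s ^ (m + 1)) * -(2 * (s ^ (m + 1) * t)) =
            -(s ^ m * t * s ^ (m + 2)) := by
          linear_combination (-(s ^ m * t)) * ha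
        have hΔ0 : t ^ (m + 1) * -(s ^ m * t ^ 2) - -(s ^ (m + 1)) * -(2 * (s ^ (m + 1) * t)) ≠ 0 := by
          rw [hΔ]
          exact neg_ne_zero.2 (mul_ne_zero (mul_ne_zero (pow_ne_zero _ hs) ht) (pow_ne_zero _ hs))
        set Δ := t ^ (m + 1) * -(s ^ m * t ^ 2) - -(s ^ (m + 1)) * -(2 * (s ^ (m + 1) * t)) with hΔd
        have hb : s ^ (m + 2) * t ≠ 0 := mul_ne_zero (pow_ne_zero _ hs) ht
        set c' := (w 0 * -(s ^ m * t ^ 2) - w 1 * -(2 * (s ^ (m + 1) * t))) / Δ with hc'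
        set c3 := (t ^ (m + 1) * w 1 - -(s ^ (m + 1)) * w 0) / Δ with hc3
        refine ⟨-(w 2 - c' * s ^ (m + 1)) / (s ^ (m + 2) * t), c' / s, 0, c3, ?_⟩
        have hcs : c' / s * s = c' := div_mul_cancel₀ _ hs
        intro i
        fin_cases i
        · change w 0 = -(w 2 - c' * s ^ (m + 1)) / (s ^ (m + 2) * t) * eval q (pf K m 0) +
            c' / s * eval q (X 0 * pp K m 0) + 0 * eval q (X 1 * pp K m 0) + c3 * eval q (pr K m 0)
          rw [hf0, map_mul, eval_X, hp0, hr0, ← hs0, ← mul_assoc (c' / s), hcs, mul_zero, zero_add, zero_mul, add_zero,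
            hc', hc3, div_mul_eq_mul_div, div_mul_eq_mul_div, ← add_div, eq_div_iff hΔ0, hΔd]
          ring
        · change w 1 = -(w 2 - c' * s ^ (m + 1)) / (s ^ (m + 2) * t) * eval q (pf K m 1) +
            c' / s * eval q (X 0 * pp K m 1) + 0 * eval q (X 1 * pp K m 1) + c3 * eval q (pr K m 1)
          rw [hf1, map_mul, eval_X, hp1, hr1, ← hs0, ← mul_assoc (c' / s), hcs, mul_zero, zero_add, zero_mul, add_zero,
            hc', hc3, div_mul_eq_mul_div, div_mul_eq_mul_div, ← add_div, eq_div_iff hΔ0, hΔd]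
          ring
        · change w 2 = -(w 2 - c' * s ^ (m + 1)) / (s ^ (m + 2) * t) * eval q (pf K m 2) +
            c' / s * eval q (X 0 * pp K m 2) + 0 * eval q (X 1 * pp K m 2) + c3 * eval q (pr K m 2)
          rw [hf2, map_mul, eval_X, hp2, hr2, ← hs0, ← mul_assoc (c' / s), hcs, mul_zero, zero_mul, add_zero, add_zero,
            neg_div, neg_mul_neg, div_mul_cancel₀ _ hb]
          ring
    · rw [Fintype.sum_sum_type] at hv
      rw [← hv]
      congr 1
      · exact Finset.sum_congr rfl (fun i _ => by rw [D1 i]; rfl)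
      · exact Finset.sum_congr rfl (fun j _ => by rw [D2 j]; rfl)

end Pool.Agent.H22S
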