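import Pool.Agent.H22S.Stm

/-!
# Project SR, piece DER1: the derivatives of the first equation
-/

set_option autoImplicit false

namespace Pool.Agent.H22S

open MvPolynomial

namespace DER1

variable {R A : Type} [CommRing R] [CommRing A] [Algebra R A] {d N : ℕ}

/-- the value of the derivative of a variable -/
theorem ev_X (v : Ix N → A) (i j : Ix N) :
    aeval v (pderiv i (X j : MvPolynomial (Ix N) R)) = if j = i then (1 : A) else 0 := by
  rw [pderiv_X, Pi.single_apply]
  split_ifs <;> simp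

theorem ev_pow (v : Ix N → A) (i j : Ix N) (n : ℕ) :
    aeval v (pderiv i ((X j : MvPolynomial (Ix N) R) ^ n)) =
      if j = i then (n : A) * v j ^ (n - 1) else 0 := by
  rw [pderiv_pow, map_mul, map_mul, ev_X, map_pow, aeval_X, map_natCast]
  split_ifs <;> simp

theorem der (v : Ix N → A) (i : Ix N) :
    aeval v (pderiv i (F1 R d N)) = (if Sum.inl 0 = i then (d : A) * v (Sum.inl 0) ^ (d - 1) else 0) +
      ((if Sum.inl 2 = i then (1 : A) else 0) *
        (v (Sum.inl 1) ^ (d - 1) + v (Sum.inl 0) ^ (d - 2) * v (Sum.inl 1)) +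
      v (Sum.inl 2) * ((if Sum.inl 1 = i then ((d - 1 : ℕ) : A) * v (Sum.inl 1) ^ (d - 1 - 1) else 0) +
        ((if Sum.inl 0 = i then ((d - 2 : ℕ) : A) * v (Sum.inl 0) ^ (d - 2 - 1) else 0) * v (Sum.inl 1) +
        v (Sum.inl 0) ^ (d - 2) * (if Sum.inl 1 = i then (1 : A) else 0)))) +
      ∑ k : Fin N, if k.1 < d - 2 then
        ((if Sum.inr k = i then (1 : A) else 0) * v (Sum.inl 2) ^ (d - 1 - k.1) +
          v (Sum.inr k) * (if Sum.inl 2 = i then
            ((d - 1 - k.1 : ℕ) : A) * v (Sum.inl 2) ^ (d - 1 - k.1 - 1) else 0)) * v (Sum.inl 0) ^ k.1 +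
        v (Sum.inr k) * v (Sum.inl 2) ^ (d - 1 - k.1) *
          (if Sum.inl 0 = i then (k.1 : A) * v (Sum.inl 0) ^ (k.1 - 1) else 0) +
        ((if Sum.inr k = i then ((d - 1 : ℕ) : A) * v (Sum.inr k) ^ (d - 1 - 1) else 0) * v (nxt d k) +
          v (Sum.inr k) ^ (d - 1) * (if nxt d k = i then (1 : A) else 0))
      else (if Sum.inr k = i then (d : A) * v (Sum.inr k) ^ (d - 1) else 0) := by
  unfold F1
  simp only [map_add, map_sum]
  congr 1
  · rw [ev_pow]
    congr 1
    rw [pderiv_mul, map_add, map_mul, map_mul, ev_X, aeval_X, map_add, map_add, map_add, ev_pow, map_mul,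
      map_pow, map_pow, aeval_X, aeval_X, pderiv_mul, map_add, map_mul, map_mul, ev_pow, ev_X, map_pow,
      aeval_X, aeval_X]
  · refine Finset.sum_congr rfl fun k _ => ?_
    by_cases h1 : k.1 < d - 2
    · rw [if_pos h1, if_pos h1]
      rw [map_add, map_add, pderiv_mul, map_add, pderiv_mul, map_mul, map_add, map_mul, map_mul, ev_X,
        ev_pow, map_mul, map_mul, ev_pow, pderiv_mul, map_add, map_mul, map_mul, ev_pow, ev_X,
        map_pow, map_pow, map_pow, aeval_X, aeval_X, aeval_X, aeval_X]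
    · rw [if_neg h1, if_neg h1, ev_pow]

theorem n01 : (0 : Fin 3) ≠ 1 := by decide
theorem n02 : (0 : Fin 3) ≠ 2 := by decide
theorem n10 : (1 : Fin 3) ≠ 0 := by decide
theorem n12 : (1 : Fin 3) ≠ 2 := by decide
theorem n20 : (2 : Fin 3) ≠ 0 := by decide
theorem n21 : (2 : Fin 3) ≠ 1 := by decide

theorem nxt0 (k : Fin N) : nxt d k ≠ Sum.inl 0 := by
  unfold nxt
  split_ifs
  · exact Sum.inr_ne_inl
  · intro h
    exact n10 (Sum.inl.inj h)

theorem nxt2 (k : Fin N) : nxt d k ≠ Sum.inl 2 := by
  unfold nxt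
  split_ifs
  · exact Sum.inr_ne_inl
  · intro h
    exact n12 (Sum.inl.inj h)

theorem nxt1 (hN : d - 2 ≤ N) {k : Fin N} (h1 : k.1 < d - 2) : nxt d k = Sum.inl 1 ↔ k.1 + 1 = d - 2 := by
  unfold nxt
  split_ifs with h
  · constructor
    · intro h2
      exact h2.elim
    · intro h2
      omega
  · constructor
    · intro _
      by_contra h3
      exact h (by omega)
    · intro _
      rfl

theorem nxtk {j : Fin N} (h1 : j.1 < d - 2) (k : Fin N) :
    nxt d j = Sum.inr k ↔ (j.1 + 1 = k.1 ∧ k.1 < d - 2) := by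
  have hk := k.2
  unfold nxt
  split_ifs with h
  · constructor
    · intro h2
      have h3 := congrArg Fin.val (Sum.inr.inj h2)
      simp only at h3
      omega
    · rintro ⟨h2, -⟩
      exact congrArg Sum.inr (Fin.ext h2)
  · constructor
    · intro h2
      exact h2.elim
    · rintro ⟨h2, h3⟩
      exact absurd (by omega) h

end DER1

open DER1 in
theorem t_DER1 : S_DER1 := by
  intro R A _ _ _ d N hd hN v
  refine ⟨?_, ?_, ?_, ?_, fun k => ?_⟩
  · unfold F1
    simp only [map_add, map_mul, map_pow, map_sum, aeval_X]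
    congr 1
    refine Finset.sum_congr rfl fun k _ => ?_
    by_cases h1 : k.1 < d - 2
    · rw [if_pos h1, if_pos h1]
      simp only [map_add, map_mul, map_pow, aeval_X]
    · rw [if_neg h1, if_neg h1, map_pow, aeval_X]
  · rw [der]
    have e : d - 2 - 1 = d - 3 := by omega
    rw [e]
    simp only [if_true, Sum.inl.injEq, reduceCtorEq, if_false, n10, n20, nxt0]
    congr 1
    · ring
    refine Finset.sum_congr rfl fun k _ => ?_
    by_cases h1 : k.1 < d - 2
    · rw [if_pos h1, if_pos h1]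
      ring
    · rw [if_neg h1, if_neg h1]
  · rw [der]
    have e : d - 1 - 1 = d - 2 := by omega
    rw [e]
    simp only [if_true, Sum.inl.injEq, reduceCtorEq, if_false, n01, n21]
    congr 1
    · ring
    refine Finset.sum_congr rfl fun k _ => ?_
    by_cases h1 : k.1 < d - 2
    · rw [if_pos h1]
      by_cases h2 : k.1 + 1 = d - 2
      · rw [if_pos h2, if_pos ((nxt1 hN h1).2 h2)]
        ring
      · rw [if_neg h2, if_neg fun h3 => h2 ((nxt1 hN h1).1 h3)]
        ring
    · rw [if_neg h1, if_neg (by omega)]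
  · rw [der]
    simp only [if_true, Sum.inl.injEq, reduceCtorEq, if_false, n02, n12, nxt2]
    congr 1
    · ring
    refine Finset.sum_congr rfl fun k _ => ?_
    have e : d - 1 - k.1 - 1 = d - 2 - k.1 := by omega
    rw [e]
    by_cases h1 : k.1 < d - 2
    · rw [if_pos h1, if_pos h1]
      ring
    · rw [if_neg h1, if_neg h1]
  · rw [der]
    have e : d - 1 - 1 = d - 2 := by omega
    rw [e]
    simp only [Sum.inr.injEq, reduceCtorEq, if_false]
    have h1 : ∀ j : Fin N, (if j.1 < d - 2 then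
        ((if j = k then (1 : A) else 0) * v (Sum.inl 2) ^ (d - 1 - j.1) + v (Sum.inr j) * 0) *
          v (Sum.inl 0) ^ j.1 + v (Sum.inr j) * v (Sum.inl 2) ^ (d - 1 - j.1) * 0 +
        ((if j = k then ((d - 1 : ℕ) : A) * v (Sum.inr j) ^ (d - 2) else 0) * v (nxt d j) +
          v (Sum.inr j) ^ (d - 1) * (if nxt d j = Sum.inr k then (1 : A) else 0))
      else (if j = k then (d : A) * v (Sum.inr j) ^ (d - 1) else 0)) =
      (if j = k then (if k.1 < d - 2 then v (Sum.inl 2) ^ (d - 1 - k.1) * v (Sum.inl 0) ^ k.1 +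
        ((d - 1 : ℕ) : A) * v (Sum.inr k) ^ (d - 2) * v (nxt d k) else (d : A) * v (Sum.inr k) ^ (d - 1))
        else 0) + (if j.1 + 1 = k.1 ∧ k.1 < d - 2 then v (Sum.inr j) ^ (d - 1) else 0) := by
      intro j
      by_cases h2 : j.1 < d - 2
      · rw [if_pos h2]
        have h3 : (if nxt d j = Sum.inr k then (1 : A) else 0) =
            if j.1 + 1 = k.1 ∧ k.1 < d - 2 then 1 else 0 := if_congr (nxtk h2 k) rfl rfl
        rw [h3]
        by_cases h4 : j = k
        · subst h4
          rw [if_pos rfl, if_pos rfl, if_pos rfl, if_pos h2]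
          split_ifs <;> ring
        · rw [if_neg h4, if_neg h4, if_neg h4]
          split_ifs <;> ring
      · rw [if_neg h2, if_neg (show ¬ (j.1 + 1 = k.1 ∧ k.1 < d - 2) by omega), add_zero]
        by_cases h4 : j = k
        · subst h4
          rw [if_pos rfl, if_pos rfl, if_neg h2]
        · rw [if_neg h4, if_neg h4]
    rw [Finset.sum_congr rfl fun j _ => h1 j, Finset.sum_add_distrib, Finset.sum_ite_eq' Finset.univ k,
      if_pos (Finset.mem_univ k)]
    ring

end Pool.Agent.H22S
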