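import Pool.Agent.H22S.Stm

/-!
# Project SR, piece DER2 (helper75)
-/

set_option autoImplicit false

namespace Pool.Agent.H22S

open MvPolynomial

section
variable {R A : Type} [CommRing R] [CommRing A] [Algebra R A] {N : ℕ}

theorem der2_X (v : Ix N → A) (i j : Ix N) :
    aeval v (pderiv i (X j : MvPolynomial (Ix N) R)) = if i = j then (1 : A) else 0 := by
  split_ifs with h
  · subst h
    rw [pderiv_X_self, map_one]
  · rw [pderiv_X_of_ne (Ne.symm h), map_zero]

theorem der2_pow (v : Ix N → A) (i j : Ix N) (n : ℕ) :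
    aeval v (pderiv i (X j ^ n : MvPolynomial (Ix N) R)) =
      if i = j then (n : A) * v j ^ (n - 1) else 0 := by
  rw [Derivation.leibniz_pow, nsmul_eq_mul, smul_eq_mul, map_mul, map_mul, map_pow, aeval_X, der2_X,
    map_natCast]
  split_ifs
  · ring
  · ring

theorem der2_prv_x (k : Fin N) : (Sum.inl 0 : Ix N) = prv k ↔ k.1 = 1 := by
  unfold prv
  split_ifs with h1 h2
  · constructor
    · intro h; cases h
    · intro h; omega
  · exact ⟨fun _ => h2, fun _ => rfl⟩
  · constructor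
    · intro h; cases h
    · intro h; omega

theorem der2_prv_y (k : Fin N) (i : Fin 3) (hi : i ≠ 0) : ¬ (Sum.inl i : Ix N) = prv k := by
  unfold prv
  split_ifs with h1 h2
  · intro h; cases h
  · intro h
    exact hi (Sum.inl.inj h)
  · intro h; cases h

theorem der2_prv_w (j k : Fin N) : (Sum.inr k : Ix N) = prv j ↔
    ((k.1 = 0 ∧ j = k) ∨ (0 < k.1 ∧ j.1 = k.1 + 1)) := by
  unfold prv
  split_ifs with h1 h2
  · constructor
    · intro h
      have h3 := Sum.inr.inj h
      left
      exact ⟨by rw [h3]; exact h1, h3.symm⟩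
    · rintro (⟨h3, h4⟩ | ⟨h3, h4⟩)
      · rw [h4]
      · omega
  · constructor
    · intro h; cases h
    · rintro (⟨h3, h4⟩ | ⟨h3, h4⟩)
      · rw [h4] at h2; omega
      · omega
  · constructor
    · intro h
      have h3 := Sum.inr.inj h
      have h4 : k.1 = j.1 - 1 := by rw [h3]
      right
      omega
    · rintro (⟨h3, h4⟩ | ⟨h3, h4⟩)
      · rw [h4] at h1; omega
      · congr 1
        apply Fin.ext
        change k.1 = j.1 - 1
        omega

/-- the derivative of one summand -/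
theorem der2_term (d : ℕ) (v : Ix N → A) (i : Ix N) (k : Fin N) :
    aeval v (pderiv i ((if k.1 < d - 2 then
      X (Sum.inr k) * X (Sum.inl 2) ^ (d - 1 - k.1) * X (Sum.inl 0) ^ k.1 else 0) +
      X (prv k) * X (Sum.inr k) ^ (d - 1) : MvPolynomial (Ix N) R)) =
    (if k.1 < d - 2 then
      (if i = Sum.inr k then (1 : A) else 0) * v (Sum.inl 2) ^ (d - 1 - k.1) * v (Sum.inl 0) ^ k.1 +
      v (Sum.inr k) * (if i = Sum.inl 2 then ((d - 1 - k.1 : ℕ) : A) *
        v (Sum.inl 2) ^ (d - 1 - k.1 - 1) else 0) * v (Sum.inl 0) ^ k.1 +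
      v (Sum.inr k) * v (Sum.inl 2) ^ (d - 1 - k.1) *
        (if i = Sum.inl 0 then (k.1 : A) * v (Sum.inl 0) ^ (k.1 - 1) else 0) else 0) +
    ((if i = prv k then (1 : A) else 0) * v (Sum.inr k) ^ (d - 1) +
      v (prv k) * (if i = Sum.inr k then ((d - 1 : ℕ) : A) * v (Sum.inr k) ^ (d - 1 - 1) else 0)) := by
  rw [map_add, map_add]
  congr 1
  · split_ifs with h
    all_goals try rw [map_zero, map_zero]
    all_goals
      rw [pderiv_mul, pderiv_mul]
      simp only [map_add, map_mul, map_pow, aeval_X, der2_X, der2_pow]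
      simp_all
      try ring
  · rw [pderiv_mul]
    simp only [map_add, map_mul, map_pow, aeval_X, der2_X, der2_pow]

end

theorem t_DER2 : S_DER2 := by
  intro R A _ _ _ d N hd hN v
  have hd1 : d - 1 - 1 = d - 2 := by omega
  have hmain : ∀ i : Ix N, aeval v (pderiv i (F2 R d N)) =
      ((if i = Sum.inl 2 then (1 : A) else 0) * (v (Sum.inl 0) ^ (d - 1) + v (Sum.inl 1) ^ (d - 1)) +
        v (Sum.inl 2) * ((if i = Sum.inl 0 then ((d - 1 : ℕ) : A) * v (Sum.inl 0) ^ (d - 1 - 1) else 0) +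
          (if i = Sum.inl 1 then ((d - 1 : ℕ) : A) * v (Sum.inl 1) ^ (d - 1 - 1) else 0))) +
      ((if i = Sum.inl 0 then ((d - 1 : ℕ) : A) * v (Sum.inl 0) ^ (d - 1 - 1) else 0) * v (Sum.inl 1) +
        v (Sum.inl 0) ^ (d - 1) * (if i = Sum.inl 1 then (1 : A) else 0)) +
      ∑ k : Fin N, ((if k.1 < d - 2 then
        (if i = Sum.inr k then (1 : A) else 0) * v (Sum.inl 2) ^ (d - 1 - k.1) * v (Sum.inl 0) ^ k.1 +
        v (Sum.inr k) * (if i = Sum.inl 2 then ((d - 1 - k.1 : ℕ) : A) *
          v (Sum.inl 2) ^ (d - 1 - k.1 - 1) else 0) * v (Sum.inl 0) ^ k.1 +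
        v (Sum.inr k) * v (Sum.inl 2) ^ (d - 1 - k.1) *
          (if i = Sum.inl 0 then (k.1 : A) * v (Sum.inl 0) ^ (k.1 - 1) else 0) else 0) +
      ((if i = prv k then (1 : A) else 0) * v (Sum.inr k) ^ (d - 1) +
        v (prv k) * (if i = Sum.inr k then ((d - 1 : ℕ) : A) * v (Sum.inr k) ^ (d - 1 - 1) else 0))) := by
    intro i
    unfold F2
    rw [map_add, map_add, map_add, map_add, map_sum, map_sum]
    congr 1
    · congr 1
      · rw [pderiv_mul]
        simp only [map_add, map_mul, map_pow, aeval_X, der2_X, der2_pow]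
      · rw [pderiv_mul]
        simp only [map_add, map_mul, map_pow, aeval_X, der2_X, der2_pow]
    · exact Finset.sum_congr rfl fun k _ => der2_term d v i k
  refine ⟨?_, ?_, ?_, ?_, ?_⟩
  · unfold F2
    simp only [map_add, map_mul, map_pow, aeval_X, map_sum, apply_ite (aeval v), map_zero]
  · rw [hmain, hd1]
    have e1 : (Sum.inl 0 : Ix N) ≠ Sum.inl 2 := by simp
    have e2 : (Sum.inl 0 : Ix N) ≠ Sum.inl 1 := by simp
    have e3 : ∀ k : Fin N, (Sum.inl 0 : Ix N) ≠ Sum.inr k := fun k => by simp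
    rw [if_neg e1, if_neg e2, if_neg e2, if_pos rfl,
      add_assoc (_ + _) (∑ k : Fin N, _) (∑ k : Fin N, _), ← Finset.sum_add_distrib]
    congr 1
    · ring
    · refine Finset.sum_congr rfl fun k _ => ?_
      rw [if_neg (e3 k), if_neg (e3 k), if_neg e1, if_pos rfl]
      simp only [der2_prv_x]
      congr 1
      · split_ifs <;> ring
      · split_ifs <;> ring
  · rw [hmain, hd1]
    have e1 : (Sum.inl 1 : Ix N) ≠ Sum.inl 2 := by simp
    have e2 : (Sum.inl 1 : Ix N) ≠ Sum.inl 0 := by simp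
    have e3 : ∀ k : Fin N, (Sum.inl 1 : Ix N) ≠ Sum.inr k := fun k => by simp
    rw [if_neg e1, if_neg e2, if_pos rfl, if_pos rfl, Finset.sum_eq_zero]
    · ring
    · intro k _
      rw [if_neg (e3 k), if_neg (e3 k), if_neg e1, if_neg e2, if_neg (der2_prv_y k 1 (by decide))]
      split_ifs <;> ring
  · rw [hmain]
    have e1 : (Sum.inl 2 : Ix N) ≠ Sum.inl 0 := by simp
    have e2 : (Sum.inl 2 : Ix N) ≠ Sum.inl 1 := by simp
    have e3 : ∀ k : Fin N, (Sum.inl 2 : Ix N) ≠ Sum.inr k := fun k => by simp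
    rw [if_neg e1, if_neg e2, if_neg e2, if_pos rfl]
    congr 1
    · ring
    · refine Finset.sum_congr rfl fun k _ => ?_
      rw [if_neg (e3 k), if_neg (e3 k), if_neg e1, if_pos rfl,
        if_neg (der2_prv_y k 2 (by decide)), show d - 1 - k.1 - 1 = d - 2 - k.1 by omega]
      split_ifs <;> ring
  · intro k
    rw [hmain, hd1]
    have e1 : (Sum.inr k : Ix N) ≠ Sum.inl 0 := by simp
    have e2 : (Sum.inr k : Ix N) ≠ Sum.inl 1 := by simp
    have e3 : (Sum.inr k : Ix N) ≠ Sum.inl 2 := by simp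
    rw [if_neg e1, if_neg e2, if_neg e3, if_neg e2]
    have h1 : ∀ j : Fin N, ((if j.1 < d - 2 then
        (if (Sum.inr k : Ix N) = Sum.inr j then (1 : A) else 0) * v (Sum.inl 2) ^ (d - 1 - j.1) *
          v (Sum.inl 0) ^ j.1 +
        v (Sum.inr j) * (if (Sum.inr k : Ix N) = Sum.inl 2 then ((d - 1 - j.1 : ℕ) : A) *
          v (Sum.inl 2) ^ (d - 1 - j.1 - 1) else 0) * v (Sum.inl 0) ^ j.1 +
        v (Sum.inr j) * v (Sum.inl 2) ^ (d - 1 - j.1) *
          (if (Sum.inr k : Ix N) = Sum.inl 0 then (j.1 : A) * v (Sum.inl 0) ^ (j.1 - 1) else 0)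
          else 0) +
      ((if (Sum.inr k : Ix N) = prv j then (1 : A) else 0) * v (Sum.inr j) ^ (d - 1) +
        v (prv j) * (if (Sum.inr k : Ix N) = Sum.inr j then ((d - 1 : ℕ) : A) *
          v (Sum.inr j) ^ (d - 2) else 0))) =
        (if j = k then ((if k.1 < d - 2 then v (Sum.inl 2) ^ (d - 1 - k.1) * v (Sum.inl 0) ^ k.1
          else 0) + (if k.1 = 0 then v (Sum.inr k) ^ (d - 1) else 0) +
          v (prv k) * (((d - 1 : ℕ) : A) * v (Sum.inr k) ^ (d - 2))) else 0) +
        (if 0 < k.1 ∧ j.1 = k.1 + 1 then v (Sum.inr j) ^ (d - 1) else 0) := by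
      intro j
      rw [if_neg e1, if_neg e3]
      have h2 : ((Sum.inr k : Ix N) = Sum.inr j) ↔ j = k :=
        ⟨fun h => (Sum.inr.inj h).symm, fun h => by rw [h]⟩
      simp only [h2, der2_prv_w]
      by_cases hjk : j = k
      · subst hjk
        have h3 : ¬ (0 < j.1 ∧ j.1 = j.1 + 1) := by omega
        simp only [h3, or_false, and_true, if_true, if_false, add_zero]
        split_ifs <;> ring
      · simp only [hjk, and_false, false_or, if_false, zero_mul, mul_zero, zero_add, add_zero,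
          ite_self]
        split_ifs <;> ring
    rw [Finset.sum_congr rfl fun j _ => h1 j, Finset.sum_add_distrib, Finset.sum_ite_eq' Finset.univ k,
      if_pos (Finset.mem_univ k)]
    have h4 : (if k.1 = 0 then v (Sum.inr k) ^ (d - 1) else 0) +
          v (prv k) * (((d - 1 : ℕ) : A) * v (Sum.inr k) ^ (d - 2)) =
        (if k.1 = 0 then (d : A) * v (Sum.inr k) ^ (d - 1) else
          ((d - 1 : ℕ) : A) * v (prv k) * v (Sum.inr k) ^ (d - 2)) := by
      split_ifs with hk
      · have h5 : prv k = Sum.inr k := by unfold prv; rw [if_pos hk]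
        rw [h5]
        have h6 : v (Sum.inr k) ^ (d - 1) = v (Sum.inr k) * v (Sum.inr k) ^ (d - 2) := by
          rw [← pow_succ', show d - 2 + 1 = d - 1 by omega]
        rw [h6]
        have h7 : (d : A) = ((d - 1 : ℕ) : A) + 1 := by
          have : d = (d - 1) + 1 := by omega
          conv_lhs => rw [this]
          push_cast
          ring
        rw [h7]
        ring
      · ring
    rw [← h4]
    ring

end Pool.Agent.H22S
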