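import Pool.Agent.H22S.Stm

/-!
# Piece HOM: the equations are homogeneous
-/

set_option autoImplicit false

namespace Pool.Agent.H22S

open MvPolynomial

namespace HOM

variable {σ R : Type} [CommRing R]

theorem px (i : σ) (n : ℕ) : (X i ^ n : MvPolynomial σ R).IsHomogeneous n := by
  have h := (isHomogeneous_X R i).pow n
  rwa [one_mul] at h

theorem mulh {φ ψ : MvPolynomial σ R} {m n d : ℕ} (h1 : φ.IsHomogeneous m)
    (h2 : ψ.IsHomogeneous n) (h : m + n = d) : (φ * ψ).IsHomogeneous d := h ▸ h1.mul h2

theorem xh (i : σ) : (X i : MvPolynomial σ R).IsHomogeneous 1 := isHomogeneous_X R i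

theorem three (i j k : σ) (a b d : ℕ) (h : 1 + a + b = d) :
    (X i * X j ^ a * X k ^ b : MvPolynomial σ R).IsHomogeneous d :=
  mulh (mulh (xh i) (px j a) rfl) (px k b) h

end HOM

open HOM in
theorem t_HOM : S_HOM := by
  intro R _ d N hd
  constructor
  · unfold F1
    refine ((px _ d).add (mulh (xh _) ((px _ (d - 1)).add (mulh (px _ (d - 2)) (xh _) (by omega)))
      (by omega))).add (IsHomogeneous.sum _ _ _ fun k _ => ?_)
    split_ifs with h
    · exact (three _ _ _ _ _ d (by omega)).add (mulh (px _ (d - 1)) (xh _) (by omega))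
    · exact px _ d
  · unfold F2
    refine ((mulh (xh _) ((px _ (d - 1)).add (px _ (d - 1))) (by omega)).add
      (mulh (px _ (d - 1)) (xh _) (by omega))).add (IsHomogeneous.sum _ _ _ fun k _ => ?_)
    refine IsHomogeneous.add ?_ (mulh (xh _) (px _ (d - 1)) (by omega))
    split_ifs with h
    · exact three _ _ _ _ _ d (by omega)
    · exact isHomogeneous_zero _ _ _

end Pool.Agent.H22S
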