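import Pool.Agent.H22S.Stm

/-!
# Piece LO1 of project SR: hyperplanes
-/

set_option autoImplicit false

namespace Pool.Agent.H22S

open MvPolynomial

/-- the line -/
noncomputable def lineLO1 (K : Type) [Field K] (M : ℕ) : Option (Fin (M + 2)) → MvPolynomial (Fin 2) K
  | none => 0
  | some j => if j = 0 then X 0 else if j = 1 then X 1 else 0

theorem t_LO1 : S_LO1 := by
  classical
  intro p _ M
  have hder : ∀ (A : Type) [CommRing A] [Algebra (ZMod p) A] (f : Option (Fin (M + 2)) → A)
      (i : Option (Fin (M + 2))),
      aeval f (pderiv i (X none : MvPolynomial (Option (Fin (M + 2))) (ZMod p))) =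
        if i = none then 1 else 0 := by
    intro A _ _ f i
    rw [pderiv_X]
    by_cases h : i = none
    · subst h
      simp
    · rw [if_neg h, Pi.single_eq_of_ne (Ne.symm h), map_zero]
  refine ⟨X none, isHomogeneous_X _ _, ?_, ?_⟩
  · intro v _ h2
    exfalso
    have := h2 none
    rw [hder, if_pos rfl] at this
    exact one_ne_zero this
  · refine ⟨1, lineLO1 _ M, one_pos, ?_, ?_, ?_, ?_⟩
    · rintro (_ | j)
      · exact isHomogeneous_zero _ _ _
      · show (if j = 0 then X 0 else if j = 1 then X 1 else 0 : MvPolynomial (Fin 2) _).IsHomogeneous 1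
        split_ifs
        · exact isHomogeneous_X _ _
        · exact isHomogeneous_X _ _
        · exact isHomogeneous_zero _ _ _
    · intro q hq
      have h01 : q 0 ≠ 0 ∨ q 1 ≠ 0 := by
        by_contra h
        push Not at h
        apply hq
        ext i
        fin_cases i
        · exact h.1
        · exact h.2
      rcases h01 with h | h
      · refine ⟨some 0, ?_⟩
        show eval q (if (0 : Fin (M + 2)) = 0 then X 0 else if (0 : Fin (M + 2)) = 1 then X 1 else 0) ≠ 0
        rw [if_pos rfl, eval_X]
        exact h
      · refine ⟨some 1, ?_⟩
        show eval q (if (1 : Fin (M + 2)) = 0 then X 0 else if (1 : Fin (M + 2)) = 1 then X 1 else 0) ≠ 0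
        have h10 : (1 : Fin (M + 2)) ≠ 0 := by
          intro h'
          have := congrArg Fin.val h'
          simp at this
        rw [if_neg h10, if_pos rfl, eval_X]
        exact h
    · rw [aeval_X]
      rfl
    · intro q _ v hv
      have hv0 : v none = 0 := by
        rw [← hv, Finset.sum_eq_single none]
        · rw [hder, if_pos rfl, map_one, mul_one]
        · intro i _ hi
          rw [hder, if_neg hi, map_zero, mul_zero]
        · intro h
          exact absurd (Finset.mem_univ _) h
      refine ⟨fun i => C (v i), fun i => isHomogeneous_C _ _, ?_, 0, fun i => ?_⟩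
      · rw [Finset.sum_eq_single none]
        · show C (v none) * _ = 0
          rw [hv0, map_zero, zero_mul]
        · intro i _ hi
          rw [hder, if_neg hi, mul_zero]
        · intro h
          exact absurd (Finset.mem_univ _) h
      · rw [eval_C, zero_mul, add_zero]

end Pool.Agent.H22S
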