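import Pool.Agent.H22S.Stm

/-!
# Project SR, piece LO2: quadrics in characteristic two

The equation is `x z + y² + y w_0 + w_0 w_1 + ... + w_(N-2) w_(N-1)`.
-/

set_option autoImplicit false

namespace Pool.Agent.H22S

open MvPolynomial

namespace LO2

variable {N : ℕ}

/-- the vertex before `w_k` in the path `y, w_0, w_1, ...` -/
def pr (k : Fin N) : Ix N := if k.1 = 0 then Sum.inl 1 else Sum.inr ⟨k.1 - 1, by omega⟩

/-- the equation -/
noncomputable def FQ (N : ℕ) : MvPolynomial (Ix N) (ZMod 2) :=
  X (Sum.inl 0) * X (Sum.inl 2) + X (Sum.inl 1) ^ 2 + ∑ k : Fin N, X (pr k) * X (Sum.inr k)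

section formulas

variable {A : Type} [CommRing A] [Algebra (ZMod 2) A] (v : Ix N → A)

theorem two_eq : (2 : A) = 0 := by
  have h : ((2 : ZMod 2)) = 0 := by decide
  have h2 := congrArg (algebraMap (ZMod 2) A) h
  rw [map_ofNat, map_zero] at h2
  exact h2

theorem aeval_FQ : aeval v (FQ N) = v (Sum.inl 0) * v (Sum.inl 2) + v (Sum.inl 1) ^ 2 +
    ∑ k : Fin N, v (pr k) * v (Sum.inr k) := by
  simp only [FQ, map_add, map_mul, map_pow, map_sum, aeval_X]

theorem der (i : Ix N) : aeval v (pderiv i (FQ N)) =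
    ((if Sum.inl 0 = i then v (Sum.inl 2) else 0) + (if Sum.inl 2 = i then v (Sum.inl 0) else 0)) +
    ∑ k : Fin N, ((if pr k = i then v (Sum.inr k) else 0) +
      (if Sum.inr k = i then v (pr k) else 0)) := by
  have hX : ∀ a b : Ix N, aeval v (pderiv i (X a * X b : MvPolynomial (Ix N) (ZMod 2))) =
      (if a = i then v b else 0) + (if b = i then v a else 0) := by
    intro a b
    rw [Derivation.leibniz, pderiv_X, pderiv_X, smul_eq_mul, smul_eq_mul, map_add, map_mul,
      map_mul, aeval_X, aeval_X]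
    have h1 : ∀ c : Ix N, aeval v ((Pi.single i 1 : Ix N → MvPolynomial (Ix N) (ZMod 2)) c) =
        if c = i then 1 else 0 := by
      intro c
      rw [Pi.single_apply]
      split_ifs <;> simp
    rw [h1, h1]
    by_cases h2 : a = i <;> by_cases h3 : b = i <;> simp [h2, h3] <;> ring
  rw [FQ, map_add, map_add, map_sum, map_add, map_add, map_sum, hX, pow_two, hX]
  have h2 : (if (Sum.inl 1 : Ix N) = i then v (Sum.inl 1) else 0) +
      (if (Sum.inl 1 : Ix N) = i then v (Sum.inl 1) else 0) = 0 := by
    split_ifs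
    · rw [← two_mul, two_eq, zero_mul]
    · rw [add_zero]
  rw [h2, add_zero]
  congr 1
  exact Finset.sum_congr rfl fun k _ => hX _ _

/-- the sequence `y, w_0, w_1, ..., 0, 0, ...` -/
def us : ℕ → A
  | 0 => v (Sum.inl 1)
  | (k + 1) => if h : k < N then v (Sum.inr ⟨k, h⟩) else 0

theorem us_pr (k : Fin N) : v (pr k) = us v k.1 := by
  obtain ⟨k, hk⟩ := k
  rcases k with _ | k
  · rfl
  · rw [pr, if_neg (Nat.succ_ne_zero k), us, dif_pos (by omega)]
    rfl

theorem us_inr (k : Fin N) : v (Sum.inr k) = us v (k.1 + 1) := by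
  rw [us, dif_pos k.2]

theorem us_ge {k : ℕ} (h : N ≤ k) : us v (k + 1) = 0 := by
  rw [us, dif_neg (by omega)]

theorem der0 : aeval v (pderiv (Sum.inl 0) (FQ N)) = v (Sum.inl 2) := by
  rw [der, if_pos rfl, if_neg (by simp), add_zero]
  have h : ∑ k : Fin N, ((if pr k = (Sum.inl 0 : Ix N) then v (Sum.inr k) else 0) +
      (if (Sum.inr k : Ix N) = Sum.inl 0 then v (pr k) else 0)) = 0 := by
    refine Finset.sum_eq_zero fun k _ => ?_
    rw [if_neg, if_neg (by simp), add_zero]
    rw [pr]
    split_ifs <;> simp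
  rw [h, add_zero]

theorem der2 : aeval v (pderiv (Sum.inl 2) (FQ N)) = v (Sum.inl 0) := by
  rw [der, if_neg (by simp), if_pos rfl, zero_add]
  have h : ∑ k : Fin N, ((if pr k = (Sum.inl 2 : Ix N) then v (Sum.inr k) else 0) +
      (if (Sum.inr k : Ix N) = Sum.inl 2 then v (pr k) else 0)) = 0 := by
    refine Finset.sum_eq_zero fun k _ => ?_
    rw [if_neg, if_neg (by simp), add_zero]
    rw [pr]
    split_ifs <;> simp
  rw [h, add_zero]

theorem der1 : aeval v (pderiv (Sum.inl 1) (FQ N)) = us v 1 := by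
  rw [der, if_neg (by simp), if_neg (by simp), zero_add, zero_add]
  have h : ∀ k : Fin N, ((if pr k = (Sum.inl 1 : Ix N) then v (Sum.inr k) else 0) +
      (if (Sum.inr k : Ix N) = Sum.inl 1 then v (pr k) else 0)) =
      if k.1 = 0 then us v 1 else 0 := by
    intro k
    rw [if_neg (show ¬ (Sum.inr k : Ix N) = Sum.inl 1 by simp), add_zero, pr]
    by_cases hk : k.1 = 0
    · rw [if_pos hk, if_pos rfl, if_pos hk, us_inr v, hk]
    · rw [if_neg hk, if_neg (by simp), if_neg hk]
  rw [Finset.sum_congr rfl fun k _ => h k]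
  rcases Nat.eq_zero_or_pos N with h0 | h0
  · subst h0
    rw [us_ge v (le_refl 0)]
    simp
  · rw [Finset.sum_eq_single ⟨0, h0⟩]
    · rw [if_pos rfl]
    · intro k _ hk
      rw [if_neg fun h => hk (Fin.ext h)]
    · intro h
      exact absurd (Finset.mem_univ _) h

theorem derw (m : Fin N) : aeval v (pderiv (Sum.inr m) (FQ N)) = us v m.1 + us v (m.1 + 2) := by
  rw [der, if_neg (by simp), if_neg (by simp), zero_add, zero_add, Finset.sum_add_distrib]
  have h1 : ∑ k : Fin N, (if (Sum.inr k : Ix N) = Sum.inr m then v (pr k) else 0) = us v m.1 := by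
    rw [Finset.sum_eq_single m]
    · rw [if_pos rfl, us_pr v]
    · intro k _ hk
      rw [if_neg fun h => hk (Sum.inr_injective h)]
    · intro h
      exact absurd (Finset.mem_univ _) h
  have h2 : ∀ k : Fin N, (if pr k = (Sum.inr m : Ix N) then v (Sum.inr k) else 0) =
      if k.1 = m.1 + 1 then us v (m.1 + 2) else 0 := by
    intro k
    rw [pr]
    by_cases hk : k.1 = 0
    · rw [if_pos hk, if_neg (by simp), if_neg (by omega)]
    · rw [if_neg hk]
      by_cases hm : k.1 = m.1 + 1
      · rw [if_pos hm, if_pos, us_inr v, hm]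
        congr 1
        exact Fin.ext (by simp [hm])
      · rw [if_neg hm, if_neg]
        intro h
        have h3 := congrArg Fin.val (Sum.inr_injective h)
        simp only at h3
        omega
  rw [h1, Finset.sum_congr rfl fun k _ => h2 k, add_comm]
  congr 1
  by_cases hm : m.1 + 1 < N
  · rw [Finset.sum_eq_single ⟨m.1 + 1, hm⟩]
    · rw [if_pos rfl]
    · intro k _ hk
      rw [if_neg fun h => hk (Fin.ext h)]
    · intro h
      exact absurd (Finset.mem_univ _) h
  · rw [show m.1 + 2 = (m.1 + 1) + 1 from rfl, us_ge v (by omega)]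
    exact Finset.sum_eq_zero fun k _ => by split_ifs <;> rfl

end formulas

theorem smooth (K : Type) [Field K] [Algebra (ZMod 2) K] : Smooth K (FQ N) := by
  intro v hF hD
  have h0 : v (Sum.inl 2) = 0 := by rw [← der0 v]; exact hD _
  have h2 : v (Sum.inl 0) = 0 := by rw [← der2 v]; exact hD _
  have h1 : us v 1 = 0 := by rw [← der1 v]; exact hD _
  have hw : ∀ m, us v m = 0 → us v (m + 2) = 0 := by
    intro m hm
    by_cases h : m < N
    · have := derw v ⟨m, h⟩
      rw [hD, hm, zero_add] at this
      exact this.symm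
    · exact us_ge v (by omega)
  have hodd : ∀ j, us v (2 * j + 1) = 0 := by
    intro j
    induction j with
    | zero => exact h1
    | succ j ih => exact hw _ ih
  have hsum : ∑ k : Fin N, v (pr k) * v (Sum.inr k) = 0 := by
    refine Finset.sum_eq_zero fun k _ => ?_
    rw [us_pr v, us_inr v]
    rcases Nat.even_or_odd' k.1 with ⟨j, hj | hj⟩
    · rw [hj, hodd, mul_zero]
    · rw [hj, hodd, zero_mul]
  rw [aeval_FQ, hsum, h0, mul_zero, zero_add, add_zero] at hF
  have hy : us v 0 = 0 := pow_eq_zero_iff (two_ne_zero) |>.1 hF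
  have heven : ∀ j, us v (2 * j) = 0 := by
    intro j
    induction j with
    | zero => exact hy
    | succ j ih => exact hw _ ih
  have hall : ∀ k, us v k = 0 := by
    intro k
    rcases Nat.even_or_odd' k with ⟨j, hj | hj⟩
    · rw [hj, heven]
    · rw [hj, hodd]
  funext i
  rcases i with i | k
  · fin_cases i
    · exact h2
    · exact hy
    · exact h0
  · rw [us_inr v, hall]
    rfl

theorem homog : (FQ N).IsHomogeneous 2 := by
  have hX : ∀ a b : Ix N, (X a * X b : MvPolynomial (Ix N) (ZMod 2)).IsHomogeneous 2 :=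
    fun a b => (isHomogeneous_X _ a).mul (isHomogeneous_X _ b)
  refine ((hX _ _).add ?_).add (IsHomogeneous.sum _ _ _ fun k _ => hX _ _)
  rw [pow_two]
  exact hX _ _

section curve

variable (K : Type) [Field K] [Algebra (ZMod 2) K]

/-- the conic -/
noncomputable def cv (N : ℕ) : Ix N → MvPolynomial (Fin 2) K :=
  Sum.elim ![X 0 ^ 2, X 0 * X 1, X 1 ^ 2] (fun _ => 0)

theorem lin_form {q : Fin 2 → K} (hq : q ≠ 0) :
    ∃ l : MvPolynomial (Fin 2) K, l.IsHomogeneous 1 ∧ eval q l = 1 := by
  obtain ⟨i, hi⟩ : ∃ i, q i ≠ 0 := by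
    by_contra h
    push Not at h
    exact hq (funext h)
  refine ⟨C (q i)⁻¹ * X i, ?_, ?_⟩
  · have := (isHomogeneous_C (Fin 2) (q i)⁻¹).mul (isHomogeneous_X K i)
    rwa [zero_add] at this
  · rw [map_mul, eval_C, eval_X, inv_mul_cancel₀ hi]

theorem hom_CX (a : K) (i : Fin 2) : (C a * X i : MvPolynomial (Fin 2) K).IsHomogeneous 1 := by
  have := (isHomogeneous_C (Fin 2) a).mul (isHomogeneous_X K i)
  rwa [zero_add] at this

theorem us_cv : us (cv K N) 1 = 0 ∧ (∀ k, us (cv K N) (k + 1) = 0) := by
  have h : ∀ k, us (cv K N) (k + 1) = 0 := by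
    intro k
    rw [us]
    split_ifs
    · rfl
    · rfl
  exact ⟨h 0, h⟩

theorem derw_cv (m : Fin N) : aeval (cv K N) (pderiv (Sum.inr m) (FQ N)) =
    if m.1 = 0 then X 0 * X 1 else 0 := by
  rw [derw, (us_cv K).2, add_zero]
  by_cases hm : m.1 = 0
  · rw [if_pos hm, hm]
    rfl
  · rw [if_neg hm]
    obtain ⟨k, hk⟩ : ∃ k, m.1 = k + 1 := ⟨m.1 - 1, by omega⟩
    rw [hk]
    exact (us_cv K).2 k

theorem solve {s t vx vz v0 : K} (h2 : (2 : K) = 0) (hst : s ≠ 0 ∨ t ≠ 0)
    (h : vx * t ^ 2 + vz * s ^ 2 + v0 * (s * t) = 0) :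
    ∃ α δ : K, vx = α * s ∧ vz = δ * t ∧ v0 = α * t + δ * s := by
  have hneg : ∀ a : K, -a = a := by
    intro a
    linear_combination (-a) * h2
  by_cases hs : s = 0
  · have ht : t ≠ 0 := by
      rcases hst with h1 | h1
      · exact absurd hs h1
      · exact h1
    subst hs
    have hvx : vx = 0 := by
      have h3 : vx * t ^ 2 = 0 := by linear_combination h
      exact (mul_eq_zero.1 h3).resolve_right (pow_ne_zero _ ht)
    refine ⟨v0 / t, vz / t, ?_, ?_, ?_⟩
    · rw [hvx, mul_zero]
    · field_simp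
    · field_simp
      ring
  · by_cases ht : t = 0
    · subst ht
      have hvz : vz = 0 := by
        have h3 : vz * s ^ 2 = 0 := by linear_combination h
        exact (mul_eq_zero.1 h3).resolve_right (pow_ne_zero _ hs)
      refine ⟨vx / s, v0 / s, ?_, ?_, ?_⟩
      · field_simp
      · rw [hvz, mul_zero]
      · field_simp
        ring
    · refine ⟨vx / s, vz / t, ?_, ?_, ?_⟩
      · field_simp
      · field_simp
      · field_simp
        linear_combination (-1 : K) * h + (v0 * s * t) * h2

theorem solve0 {s t vx vz : K} (h2 : (2 : K) = 0) (hst : s ≠ 0 ∨ t ≠ 0)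
    (h : vx * t ^ 2 + vz * s ^ 2 = 0) : ∃ c : K, vx = c * s ^ 2 ∧ vz = c * t ^ 2 := by
  by_cases hs : s = 0
  · have ht : t ≠ 0 := by
      rcases hst with h1 | h1
      · exact absurd hs h1
      · exact h1
    subst hs
    have hvx : vx = 0 := by
      have h3 : vx * t ^ 2 = 0 := by linear_combination h
      exact (mul_eq_zero.1 h3).resolve_right (pow_ne_zero _ ht)
    refine ⟨vz / t ^ 2, ?_, ?_⟩
    · rw [hvx]
      ring
    · field_simp
  · refine ⟨vx / s ^ 2, ?_, ?_⟩
    · field_simp
    · field_simp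
      linear_combination h - (vx * t ^ 2) * h2

theorem veryFree : VeryFree K (FQ N) := by
  have h2K : (2 : K) = 0 := two_eq
  have h2P : (2 : MvPolynomial (Fin 2) K) = 0 := two_eq
  refine ⟨2, cv K N, by norm_num, ?_, ?_, ?_, ?_⟩
  · intro i
    rcases i with i | k
    · fin_cases i
      · exact (isHomogeneous_X K 0).pow 2
      · exact (isHomogeneous_X K 0).mul (isHomogeneous_X K 1)
      · exact (isHomogeneous_X K 1).pow 2
    · exact isHomogeneous_zero _ _ _
  · intro q hq
    by_contra h
    push Not at h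
    apply hq
    have h0 : eval q (X 0 ^ 2 : MvPolynomial (Fin 2) K) = 0 := h (Sum.inl 0)
    have h1 : eval q (X 1 ^ 2 : MvPolynomial (Fin 2) K) = 0 := h (Sum.inl 2)
    rw [map_pow, eval_X] at h0 h1
    funext i
    fin_cases i
    · exact pow_eq_zero_iff (two_ne_zero) |>.1 h0
    · exact pow_eq_zero_iff (two_ne_zero) |>.1 h1
  · rw [aeval_FQ]
    have h1 : ∑ k : Fin N, cv K N (pr k) * cv K N (Sum.inr k) = 0 :=
      Finset.sum_eq_zero fun k _ => mul_zero _
    rw [h1, add_zero]
    change (X 0 ^ 2 : MvPolynomial (Fin 2) K) * X 1 ^ 2 + (X 0 * X 1) ^ 2 = 0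
    linear_combination (X 0 ^ 2 * X 1 ^ 2 : MvPolynomial (Fin 2) K) * h2P
  · intro q hq v hv
    have hst : q 0 ≠ 0 ∨ q 1 ≠ 0 := by
      by_contra h
      push Not at h
      apply hq
      funext i
      fin_cases i
      · exact h.1
      · exact h.2
    obtain ⟨l, hl, hlq⟩ := lin_form K hq
    have hlC : ∀ a : K, (C a * l).IsHomogeneous 1 := by
      intro a
      have := (isHomogeneous_C (Fin 2) a).mul hl
      rwa [zero_add] at this
    rw [Fintype.sum_sum_type, Fin.sum_univ_three, der0, der1, der2, (us_cv K).1,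
      Finset.sum_congr rfl fun k _ => by rw [derw_cv]] at hv
    rw [map_zero, mul_zero, add_zero] at hv
    change v (Sum.inl 0) * eval q (X 1 ^ 2 : MvPolynomial (Fin 2) K) +
      v (Sum.inl 2) * eval q (X 0 ^ 2 : MvPolynomial (Fin 2) K) + _ = 0 at hv
    rw [map_pow, map_pow, eval_X, eval_X] at hv
    rcases Nat.eq_zero_or_pos N with hN | hN
    · subst hN
      rw [Finset.univ_eq_empty, Finset.sum_empty, add_zero] at hv
      obtain ⟨c, hc0, hc2⟩ := solve0 K h2K hst hv
      refine ⟨Sum.elim ![0, C (v (Sum.inl 1) - c * (q 0 * q 1)) * l, 0] (fun _ => 0), ?_, ?_, c, ?_⟩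
      · intro i
        rcases i with i | k
        · fin_cases i
          · exact isHomogeneous_zero _ _ _
          · exact hlC _
          · exact isHomogeneous_zero _ _ _
        · exact isHomogeneous_zero _ _ _
      · rw [Fintype.sum_sum_type, Fin.sum_univ_three, der0, der1, der2, (us_cv K).1]
        simp
      · intro i
        rcases i with i | k
        · fin_cases i
          · change v (Sum.inl 0) = eval q 0 + c * eval q (X 0 ^ 2)
            rw [map_zero, zero_add, map_pow, eval_X]
            exact hc0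
          · change v (Sum.inl 1) = eval q (C (v (Sum.inl 1) - c * (q 0 * q 1)) * l) +
              c * eval q (X 0 * X 1)
            rw [map_mul, eval_C, hlq, map_mul, eval_X, eval_X]
            ring
          · change v (Sum.inl 2) = eval q 0 + c * eval q (X 1 ^ 2)
            rw [map_zero, zero_add, map_pow, eval_X]
            exact hc2
        · exact k.elim0
    · obtain ⟨z, hz⟩ : ∃ z : Fin N, z.1 = 0 := ⟨⟨0, hN⟩, rfl⟩
      have hsingle : ∀ (B : Type) [AddCommMonoid B] (F : Fin N → B),
          (∀ k, k.1 ≠ 0 → F k = 0) → ∑ k, F k = F z := by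
        intro B _ F hF
        refine Finset.sum_eq_single z (fun k _ hk => hF k fun h => hk (Fin.ext (by rw [h, hz])))
          (fun h => absurd (Finset.mem_univ _) h)
      rw [hsingle K _ fun k hk => by rw [if_neg hk, map_zero, mul_zero], if_pos hz, map_mul, eval_X,
        eval_X] at hv
      obtain ⟨α, δ, hx, hzz, h0⟩ := solve K h2K hst hv
      refine ⟨Sum.elim ![C α * X 0, C (v (Sum.inl 1)) * l, C δ * X 1] (fun k =>
        if k.1 = 0 then C α * X 1 + C δ * X 0 else C (v (Sum.inr k)) * l), ?_, ?_, 0, ?_⟩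
      · intro i
        rcases i with i | k
        · fin_cases i
          · exact hom_CX K _ _
          · exact hlC _
          · exact hom_CX K _ _
        · change (if k.1 = 0 then C α * X 1 + C δ * X 0 else C (v (Sum.inr k)) * l).IsHomogeneous 1
          split_ifs
          · exact (hom_CX K _ _).add (hom_CX K _ _)
          · exact hlC _
      · rw [Fintype.sum_sum_type, Fin.sum_univ_three, der0, der1, der2, (us_cv K).1,
          Finset.sum_congr rfl fun k _ => by rw [derw_cv],
          hsingle _ _ fun k hk => by rw [if_neg hk, mul_zero], if_pos hz, mul_zero, add_zero]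
        change (C α * X 0) * (X 1 ^ 2 : MvPolynomial (Fin 2) K) + (C δ * X 1) * X 0 ^ 2 +
          (if z.1 = 0 then C α * X 1 + C δ * X 0 else C (v (Sum.inr z)) * l) * (X 0 * X 1) = 0
        rw [if_pos hz]
        linear_combination (C α * X 0 * X 1 ^ 2 + C δ * X 0 ^ 2 * X 1 : MvPolynomial (Fin 2) K) * h2P
      · intro i
        rw [zero_mul, add_zero]
        rcases i with i | k
        · fin_cases i
          · change v (Sum.inl 0) = eval q (C α * X 0)
            rw [map_mul, eval_C, eval_X]
            exact hx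
          · change v (Sum.inl 1) = eval q (C (v (Sum.inl 1)) * l)
            rw [map_mul, eval_C, hlq, mul_one]
          · change v (Sum.inl 2) = eval q (C δ * X 1)
            rw [map_mul, eval_C, eval_X]
            exact hzz
        · change v (Sum.inr k) = eval q
            (if k.1 = 0 then C α * X 1 + C δ * X 0 else C (v (Sum.inr k)) * l)
          by_cases hk : k.1 = 0
          · have hkz : k = z := Fin.ext (by rw [hk, hz])
            rw [if_pos hk, map_add, map_mul, map_mul, eval_C, eval_C, eval_X, eval_X, hkz]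
            exact h0
          · rw [if_neg hk, map_mul, eval_C, hlq, mul_one]

end curve

end LO2

/-- **Piece LO2.** -/
theorem t_LO2 : S_LO2 := fun N =>
  ⟨LO2.FQ N, LO2.homog, LO2.smooth _, LO2.veryFree _⟩

end Pool.Agent.H22S
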