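import Pool.Agent.H22S.Stm

/-!
# Project SR, piece SM1: the first equation is smooth
-/

set_option autoImplicit false

namespace Pool.Agent.H22S

open MvPolynomial

theorem t_SM1 (h : S_DER1) : S_SM1 := by
  intro k K _ _ _ d N hd hN hdK v _ hv
  obtain ⟨-, hx, hy, hz, hw⟩ := h k K d N hd hN v
  rw [hv] at hx hy hz
  have hd1 : ((d - 1 : ℕ) : K) = 0 := by
    rw [Nat.cast_sub (by omega), hdK]
    simp
  -- z = 0
  have hN0 : 0 < N := by omega
  have z0 : v (Sum.inl 2) = 0 := by
    have h1 := hw ⟨0, hN0⟩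
    rw [hv, if_pos (show (0 : ℕ) < d - 2 by omega), hd1] at h1
    rw [Finset.sum_eq_zero (fun j _ => if_neg (fun hh => by
      have h2 : j.1 + 1 = 0 := hh.1
      omega))] at h1
    simp only [Nat.sub_zero, zero_mul, add_zero, pow_zero, mul_one] at h1
    exact pow_eq_zero_iff (by omega) |>.1 h1.symm
  -- w_j = 0 for j + 1 < d - 2
  have w1 : ∀ j : Fin N, j.1 + 1 < d - 2 → v (Sum.inr j) = 0 := by
    intro j hj
    have hj1 : j.1 + 1 < N := by omega
    have h1 := hw ⟨j.1 + 1, hj1⟩
    rw [hv, if_pos (show j.1 + 1 < d - 2 by omega), hd1, z0] at h1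
    rw [Finset.sum_eq_single j (fun i _ hi => if_neg (fun hh => hi (Fin.ext (by
      have := hh.1; simp only at this; omega)))) (fun hh => absurd (Finset.mem_univ j) hh),
      if_pos ⟨rfl, hj⟩] at h1
    rw [zero_pow (show d - 1 - (j.1 + 1) ≠ 0 by omega)] at h1
    simp only [zero_mul, zero_add] at h1
    exact pow_eq_zero_iff (by omega) |>.1 h1.symm
  -- w_j = 0 for j ≥ d - 2
  have w2 : ∀ j : Fin N, ¬ j.1 < d - 2 → v (Sum.inr j) = 0 := by
    intro j hj
    have h1 := hw j
    rw [hv, if_neg hj, hdK] at h1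
    rw [Finset.sum_eq_zero (fun i _ => if_neg (fun hh => hj hh.2))] at h1
    rw [one_mul, add_zero] at h1
    exact pow_eq_zero_iff (by omega) |>.1 h1.symm
  -- x = 0
  have x0 : v (Sum.inl 0) = 0 := by
    rw [z0, hdK] at hx
    rw [Finset.sum_eq_zero (fun j _ => by
      split_ifs with hj
      · rw [zero_pow (show d - 1 - j.1 ≠ 0 by omega)]
        ring
      · rfl)] at hx
    rw [zero_mul, one_mul, add_zero, add_zero] at hx
    exact pow_eq_zero_iff (by omega) |>.1 hx.symm
  -- y = 0
  have y0 : v (Sum.inl 1) = 0 := by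
    rw [z0, x0] at hz
    rw [Finset.sum_eq_zero (fun j _ => by
      split_ifs with hj
      · rw [zero_pow (show d - 2 - j.1 ≠ 0 by omega)]
        ring
      · rfl)] at hz
    rw [zero_pow (show d - 2 ≠ 0 by omega), zero_mul, add_zero, add_zero] at hz
    exact pow_eq_zero_iff (by omega) |>.1 hz.symm
  -- w_(d-3) = 0
  have w3 : ∀ j : Fin N, j.1 + 1 = d - 2 → v (Sum.inr j) = 0 := by
    intro j hj
    rw [z0] at hy
    rw [Finset.sum_eq_single j (fun i _ hi => if_neg (fun hh => hi (Fin.ext (by omega))))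
      (fun hh => absurd (Finset.mem_univ j) hh), if_pos hj, zero_mul, zero_add] at hy
    exact pow_eq_zero_iff (by omega) |>.1 hy.symm
  funext i
  rcases i with i | j
  · fin_cases i
    · exact x0
    · exact y0
    · exact z0
  · by_cases h1 : j.1 < d - 2
    · by_cases h2 : j.1 + 1 < d - 2
      · exact w1 j h2
      · exact w3 j (by omega)
    · exact w2 j h1

end Pool.Agent.H22S

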