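import Pool.Agent.H22S.Stm

/-!
# SR, piece SM2 (helper33): the second equation is smooth if `d = 0` in `K`
-/

set_option autoImplicit false

namespace Pool.Agent.H22S

open MvPolynomial

theorem t_SM2 (h : S_DER2) : S_SM2 := by
  intro k K _ _ _ d N hd hN hK v hF hD
  obtain ⟨e0, ex, ey, ez, ew⟩ := h k K d N hd hN v
  rw [e0] at hF
  have hx := hD (Sum.inl 0)
  rw [ex] at hx
  have hy := hD (Sum.inl 1)
  rw [ey] at hy
  have hz := hD (Sum.inl 2)
  rw [ez] at hz
  have hw : ∀ j : Fin N, _ := fun j => (ew j).symm.trans (hD (Sum.inr j))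
  have hN0 : 0 < N := by omega
  have hd1 : d - 1 ≠ 0 := by omega
  have hd2 : d - 2 ≠ 0 := by omega
  -- z = 0
  have z0 : v (Sum.inl 2) = 0 := by
    have h1 := hw ⟨0, hN0⟩
    have h2 : 0 < d - 2 := by omega
    simp only [h2, if_true, Nat.sub_zero, pow_zero, mul_one, hK, zero_mul, lt_irrefl, false_and,
      if_false, Finset.sum_const_zero, add_zero] at h1
    exact pow_eq_zero_iff hd1 |>.1 h1
  -- x = 0
  have x0 : v (Sum.inl 0) = 0 := by
    rw [z0, zero_mul, zero_add] at hy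
    exact pow_eq_zero_iff hd1 |>.1 hy
  -- y = 0
  have y0 : v (Sum.inl 1) = 0 := by
    have h1 : (∑ k : Fin N, if k.1 < d - 2 then
      v (Sum.inr k) * (((d - 1 - k.1 : ℕ) : K) * v (Sum.inl 2) ^ (d - 2 - k.1)) * v (Sum.inl 0) ^ k.1 else 0) = 0 := by
      refine Finset.sum_eq_zero fun j _ => ?_
      split_ifs with hj
      · rw [z0, zero_pow (by omega), mul_zero, mul_zero, zero_mul]
      · rfl
    rw [h1, x0, zero_pow hd1, zero_add, add_zero] at hz
    exact pow_eq_zero_iff hd1 |>.1 hz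
  -- w_1 = 0
  have w1 : ∀ h1 : 1 < N, v (Sum.inr ⟨1, h1⟩) = 0 := by
    intro h1
    have h2 : (∑ k : Fin N, if k.1 < d - 2 then
      v (Sum.inr k) * v (Sum.inl 2) ^ (d - 1 - k.1) * ((k.1 : K) * v (Sum.inl 0) ^ (k.1 - 1)) else 0) = 0 := by
      refine Finset.sum_eq_zero fun j _ => ?_
      split_ifs with hj
      · rw [z0, zero_pow (by omega), mul_zero, zero_mul]
      · rfl
    have h3 : (∑ k : Fin N, if k.1 = 1 then v (Sum.inr k) ^ (d - 1) else 0) =
        v (Sum.inr ⟨1, h1⟩) ^ (d - 1) := by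
      rw [Finset.sum_eq_single (⟨1, h1⟩ : Fin N)]
      · rw [if_pos rfl]
      · intro b _ hb
        rw [if_neg]
        intro hb'
        exact hb (Fin.ext hb')
      · intro hh
        exact absurd (Finset.mem_univ _) hh
    rw [h2, h3, z0, y0, zero_mul, mul_zero, zero_add, zero_add, zero_add] at hx
    exact pow_eq_zero_iff hd1 |>.1 hx
  have wk : ∀ m : ℕ, ∀ hm : m + 1 < N, v (Sum.inr ⟨m + 1, hm⟩) = 0 := by
    intro m
    induction m with
    | zero => exact fun hm => w1 hm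
    | succ m ih =>
      intro hm
      have h1 := ih (by omega)
      have h2 := hw ⟨m + 1, by omega⟩
      have h3 : (∑ j : Fin N, if 0 < m + 1 ∧ j.1 = m + 1 + 1 then v (Sum.inr j) ^ (d - 1) else 0) =
          v (Sum.inr ⟨m + 1 + 1, hm⟩) ^ (d - 1) := by
        rw [Finset.sum_eq_single (⟨m + 1 + 1, hm⟩ : Fin N)]
        · rw [if_pos ⟨Nat.succ_pos _, rfl⟩]
        · intro b _ hb
          rw [if_neg]
          intro hb'
          exact hb (Fin.ext hb'.2)
        · intro hh
          exact absurd (Finset.mem_univ _) hh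
      have h4 : (if m + 1 < d - 2 then v (Sum.inl 2) ^ (d - 1 - (m + 1)) * v (Sum.inl 0) ^ (m + 1) else 0) = 0 := by
        split_ifs
        · rw [x0, zero_pow (Nat.succ_ne_zero _), mul_zero]
        · rfl
      simp only [] at h2
      rw [h3, h4, if_neg (Nat.succ_ne_zero _), h1, zero_pow hd2, mul_zero, zero_add, zero_add] at h2
      exact pow_eq_zero_iff hd1 |>.1 h2
  -- w_0 = 0
  have w0 : v (Sum.inr ⟨0, hN0⟩) = 0 := by
    have h1 : (∑ k : Fin N, ((if k.1 < d - 2 then v (Sum.inr k) * v (Sum.inl 2) ^ (d - 1 - k.1) * v (Sum.inl 0) ^ k.1 else 0) +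
      v (prv k) * v (Sum.inr k) ^ (d - 1))) = v (Sum.inr ⟨0, hN0⟩) * v (Sum.inr ⟨0, hN0⟩) ^ (d - 1) := by
      rw [Finset.sum_eq_single (⟨0, hN0⟩ : Fin N)]
      · have h2 : prv (⟨0, hN0⟩ : Fin N) = Sum.inr ⟨0, hN0⟩ := by
          unfold prv
          rw [if_pos rfl]
        rw [h2, z0]
        have h3 : (if (0 : ℕ) < d - 2 then v (Sum.inr ⟨0, hN0⟩) * (0 : K) ^ (d - 1 - 0) * v (Sum.inl 0) ^ 0 else 0) = 0 := by
          split_ifs
          · rw [zero_pow (by omega), mul_zero, zero_mul]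
          · rfl
        rw [h3, zero_add]
      · intro b _ hb
        have hb0 : b.1 ≠ 0 := fun hb' => hb (Fin.ext hb')
        obtain ⟨m, hm⟩ : ∃ m, b.1 = m + 1 := ⟨b.1 - 1, by omega⟩
        have hb1 : v (Sum.inr b) = 0 := by
          have h2 : b = ⟨m + 1, hm ▸ b.2⟩ := Fin.ext hm
          rw [h2]
          exact wk m _
        rw [hb1, zero_pow hd1, mul_zero, zero_mul, zero_mul, ite_self, add_zero]
      · intro hh
        exact absurd (Finset.mem_univ _) hh
    rw [h1, z0, x0, zero_mul, zero_pow hd1, zero_mul, zero_add, zero_add] at hF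
    rcases mul_eq_zero.1 hF with h2 | h2
    · exact h2
    · exact pow_eq_zero_iff hd1 |>.1 h2
  funext i
  rw [Pi.zero_apply]
  rcases i with i | j
  · fin_cases i
    · exact x0
    · exact y0
    · exact z0
  · by_cases hj : j.1 = 0
    · have h2 : j = ⟨0, hN0⟩ := Fin.ext hj
      rw [h2]
      exact w0
    · obtain ⟨m, hm⟩ : ∃ m, j.1 = m + 1 := ⟨j.1 - 1, by omega⟩
      have h2 : j = ⟨m + 1, hm ▸ j.2⟩ := Fin.ext hm
      rw [h2]
      exact wk m _

end Pool.Agent.H22S
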