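import Mathlib

/-!
# Project SR (helper22, with helper51): separably rationally connected Fano hypersurfaces over prime fields

MP_fe9afc_ag.  THEOREM (goal).  Let `p` be a prime, `n ≥ 2`, `1 ≤ d ≤ n`, and `p ∣ d` or `p ∣ d - 1` (so for `p = 2` all
pairs).  There is a smooth hypersurface of degree `d` in `ℙⁿ` over `𝔽_p` which is separably rationally connected.

Coordinates `x, y, z` (`Sum.inl 0, 1, 2`) and `w_k` (`Sum.inr k`, `k < N`, `N = n - 2`).  For `d ≥ 3` the very free curve is the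
plane monoid curve `(s a, t a, -b, 0)`, `a` squarefree of degree `d - 1`, `b = s β`; the equation is
`b(x,y) + z a(x,y) + ∑_{k < d-2} w_k z^(d-1-k) x^k` modulo `(w)²`.  On the curve the derivative with respect to `w_k` is
`s^(d-1) (-β)^(d-1-k) a^k`, so `a e_k + β e_{k+1}` are sections of the pull-back of `T_X (-1)`, and the last one is
completed by a section in the plane.

All pieces are independent.  File `Pool/Agent/H22S/NAME.lean`, `import Pool.Agent.H22S.Stm`, namespace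
`Pool.Agent.H22S`, theorem `t_NAME : S_NAME`; (uses X) means `theorem t_NAME (h : S_X) : S_NAME`.
-/

set_option autoImplicit false

namespace Pool.Agent.H22S

open MvPolynomial

section defs

variable {k ι : Type} [Field k] [Fintype ι]

/-- The projective hypersurface `F = 0` is smooth (Jacobian criterion over `K`). -/
def Smooth (K : Type) [Field K] [Algebra k K] (F : MvPolynomial ι k) : Prop :=
  ∀ v : ι → K, aeval v F = 0 → (∀ i, aeval v (pderiv i F) = 0) → v = 0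

/-- There is a morphism `f` from the projective line to the hypersurface `F = 0`, given by forms `f i` of degree `e`, such
that the pull-back of the tangent bundle is ample, that is, `f^* T (-1)` is generated by global sections: every tangent
vector `v` at `f(q)` is, modulo `f(q)`, the value of a section `g` (forms of degree `e - 1` with `∑ g_i (∂_i F)(f) = 0`). -/
def VeryFree (K : Type) [Field K] [Algebra k K] (F : MvPolynomial ι k) : Prop :=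
  ∃ (e : ℕ) (f : ι → MvPolynomial (Fin 2) K), 0 < e ∧ (∀ i, (f i).IsHomogeneous e) ∧
    (∀ q : Fin 2 → K, q ≠ 0 → ∃ i, eval q (f i) ≠ 0) ∧ aeval f F = 0 ∧
    ∀ q : Fin 2 → K, q ≠ 0 → ∀ v : ι → K, ∑ i, v i * eval q (aeval f (pderiv i F)) = 0 →
      ∃ g : ι → MvPolynomial (Fin 2) K, (∀ i, (g i).IsHomogeneous (e - 1)) ∧
        ∑ i, g i * aeval f (pderiv i F) = 0 ∧ ∃ c : K, ∀ i, v i = eval q (g i) + c * eval q (f i)

end defs

/-- There is a smooth hypersurface of degree `d` over `𝔽_p` with coordinates indexed by `ι` and a very free curve on it over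
the algebraic closure. -/
def Good (p : ℕ) [Fact p.Prime] (ι : Type) [Fintype ι] (d : ℕ) : Prop :=
  ∃ F : MvPolynomial ι (ZMod p), F.IsHomogeneous d ∧ Smooth (AlgebraicClosure (ZMod p)) F ∧
    VeryFree (AlgebraicClosure (ZMod p)) F

/-- the index set of the coordinates -/
abbrev Ix (N : ℕ) : Type := Fin 3 ⊕ Fin N

section eqs

variable {N : ℕ} {R : Type} [CommRing R]

/-- the variable after `w_k` in the first equation -/
noncomputable def nxt (d : ℕ) (k : Fin N) : Ix N :=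
  if h : k.1 + 1 < N ∧ k.1 + 1 < d - 2 then Sum.inr ⟨k.1 + 1, h.1⟩ else Sum.inl 1

/-- the variable before `w_k` in the second equation -/
def prv (k : Fin N) : Ix N :=
  if k.1 = 0 then Sum.inr k else if k.1 = 1 then Sum.inl 0 else Sum.inr ⟨k.1 - 1, by omega⟩

/-- the equation if `p ∣ d - 1` -/
noncomputable def F1 (R : Type) [CommRing R] (d N : ℕ) : MvPolynomial (Ix N) R :=
  X (Sum.inl 0) ^ d + X (Sum.inl 2) * (X (Sum.inl 1) ^ (d - 1) + X (Sum.inl 0) ^ (d - 2) * X (Sum.inl 1)) +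
    ∑ k : Fin N, if k.1 < d - 2 then
      X (Sum.inr k) * X (Sum.inl 2) ^ (d - 1 - k.1) * X (Sum.inl 0) ^ k.1 + X (Sum.inr k) ^ (d - 1) * X (nxt d k)
      else X (Sum.inr k) ^ d

/-- the equation if `p ∣ d` -/
noncomputable def F2 (R : Type) [CommRing R] (d N : ℕ) : MvPolynomial (Ix N) R :=
  X (Sum.inl 2) * (X (Sum.inl 0) ^ (d - 1) + X (Sum.inl 1) ^ (d - 1)) + X (Sum.inl 0) ^ (d - 1) * X (Sum.inl 1) +
    ∑ k : Fin N, ((if k.1 < d - 2 then X (Sum.inr k) * X (Sum.inl 2) ^ (d - 1 - k.1) * X (Sum.inl 0) ^ k.1 else 0) +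
      X (prv k) * X (Sum.inr k) ^ (d - 1))

end eqs

/-- HOM (40 lines).  The equations are homogeneous of degree `d`. -/
def S_HOM : Prop := ∀ (R : Type) [CommRing R] (d N : ℕ), 3 ≤ d →
  (F1 R d N).IsHomogeneous d ∧ (F2 R d N).IsHomogeneous d

/-- DER1 (100 lines).  The derivatives of the first equation, evaluated at a point `v` of an algebra. -/
def S_DER1 : Prop := ∀ (R A : Type) [CommRing R] [CommRing A] [Algebra R A] (d N : ℕ), 3 ≤ d → d - 2 ≤ N →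
  ∀ v : Ix N → A,
  aeval v (F1 R d N) = v (Sum.inl 0) ^ d +
    v (Sum.inl 2) * (v (Sum.inl 1) ^ (d - 1) + v (Sum.inl 0) ^ (d - 2) * v (Sum.inl 1)) +
    (∑ k : Fin N, if k.1 < d - 2 then v (Sum.inr k) * v (Sum.inl 2) ^ (d - 1 - k.1) * v (Sum.inl 0) ^ k.1 +
      v (Sum.inr k) ^ (d - 1) * v (nxt d k) else v (Sum.inr k) ^ d) ∧
  aeval v (pderiv (Sum.inl 0) (F1 R d N)) = (d : A) * v (Sum.inl 0) ^ (d - 1) +
    v (Sum.inl 2) * (((d - 2 : ℕ) : A) * v (Sum.inl 0) ^ (d - 3) * v (Sum.inl 1)) +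
    (∑ k : Fin N, if k.1 < d - 2 then
      v (Sum.inr k) * v (Sum.inl 2) ^ (d - 1 - k.1) * ((k.1 : A) * v (Sum.inl 0) ^ (k.1 - 1)) else 0) ∧
  aeval v (pderiv (Sum.inl 1) (F1 R d N)) =
    v (Sum.inl 2) * (((d - 1 : ℕ) : A) * v (Sum.inl 1) ^ (d - 2) + v (Sum.inl 0) ^ (d - 2)) +
    (∑ k : Fin N, if k.1 + 1 = d - 2 then v (Sum.inr k) ^ (d - 1) else 0) ∧
  aeval v (pderiv (Sum.inl 2) (F1 R d N)) = v (Sum.inl 1) ^ (d - 1) + v (Sum.inl 0) ^ (d - 2) * v (Sum.inl 1) +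
    (∑ k : Fin N, if k.1 < d - 2 then
      v (Sum.inr k) * (((d - 1 - k.1 : ℕ) : A) * v (Sum.inl 2) ^ (d - 2 - k.1)) * v (Sum.inl 0) ^ k.1 else 0) ∧
  ∀ k : Fin N, aeval v (pderiv (Sum.inr k) (F1 R d N)) =
    (if k.1 < d - 2 then v (Sum.inl 2) ^ (d - 1 - k.1) * v (Sum.inl 0) ^ k.1 +
      ((d - 1 : ℕ) : A) * v (Sum.inr k) ^ (d - 2) * v (nxt d k) else (d : A) * v (Sum.inr k) ^ (d - 1)) +
    (∑ j : Fin N, if j.1 + 1 = k.1 ∧ k.1 < d - 2 then v (Sum.inr j) ^ (d - 1) else 0)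

/-- DER2 (100 lines).  The derivatives of the second equation, evaluated at a point `v` of an algebra. -/
def S_DER2 : Prop := ∀ (R A : Type) [CommRing R] [CommRing A] [Algebra R A] (d N : ℕ), 3 ≤ d → d - 2 ≤ N →
  ∀ v : Ix N → A,
  aeval v (F2 R d N) = v (Sum.inl 2) * (v (Sum.inl 0) ^ (d - 1) + v (Sum.inl 1) ^ (d - 1)) +
    v (Sum.inl 0) ^ (d - 1) * v (Sum.inl 1) +
    (∑ k : Fin N, ((if k.1 < d - 2 then v (Sum.inr k) * v (Sum.inl 2) ^ (d - 1 - k.1) * v (Sum.inl 0) ^ k.1 else 0) +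
      v (prv k) * v (Sum.inr k) ^ (d - 1))) ∧
  aeval v (pderiv (Sum.inl 0) (F2 R d N)) = v (Sum.inl 2) * (((d - 1 : ℕ) : A) * v (Sum.inl 0) ^ (d - 2)) +
    ((d - 1 : ℕ) : A) * v (Sum.inl 0) ^ (d - 2) * v (Sum.inl 1) +
    (∑ k : Fin N, if k.1 < d - 2 then
      v (Sum.inr k) * v (Sum.inl 2) ^ (d - 1 - k.1) * ((k.1 : A) * v (Sum.inl 0) ^ (k.1 - 1)) else 0) +
    (∑ k : Fin N, if k.1 = 1 then v (Sum.inr k) ^ (d - 1) else 0) ∧
  aeval v (pderiv (Sum.inl 1) (F2 R d N)) = v (Sum.inl 2) * (((d - 1 : ℕ) : A) * v (Sum.inl 1) ^ (d - 2)) +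
    v (Sum.inl 0) ^ (d - 1) ∧
  aeval v (pderiv (Sum.inl 2) (F2 R d N)) = v (Sum.inl 0) ^ (d - 1) + v (Sum.inl 1) ^ (d - 1) +
    (∑ k : Fin N, if k.1 < d - 2 then
      v (Sum.inr k) * (((d - 1 - k.1 : ℕ) : A) * v (Sum.inl 2) ^ (d - 2 - k.1)) * v (Sum.inl 0) ^ k.1 else 0) ∧
  ∀ k : Fin N, aeval v (pderiv (Sum.inr k) (F2 R d N)) =
    (if k.1 < d - 2 then v (Sum.inl 2) ^ (d - 1 - k.1) * v (Sum.inl 0) ^ k.1 else 0) +
    (if k.1 = 0 then (d : A) * v (Sum.inr k) ^ (d - 1) else ((d - 1 : ℕ) : A) * v (prv k) * v (Sum.inr k) ^ (d - 2)) +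
    (∑ j : Fin N, if 0 < k.1 ∧ j.1 = k.1 + 1 then v (Sum.inr j) ^ (d - 1) else 0)

/-- SM1 (100 lines), uses DER1.  The first equation is smooth if `d = 1` in `K`.  PROOF.  Here `((d - 1 : ℕ) : K) = 0`.  The derivative with
respect to `w_0` is `z ^ (d-1)`, so `z = 0`.  The derivative with respect to `w_k`, `0 < k < d - 2`, is then
`w_(k-1) ^ (d-1)`, so `w_k = 0` for `k < d - 3`; that with respect to `w_k`, `k ≥ d - 2`, is `w_k ^ (d-1)`, so `w_k = 0`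
for these `k`; that with respect to `x` is `x ^ (d-1)`, so `x = 0`; that with respect to `z` is then `y ^ (d-1)`, so `y = 0`; that with respect to
`y` is `w_(d-3) ^ (d-1)`. -/
def S_SM1 : Prop := ∀ (k K : Type) [Field k] [Field K] [Algebra k K] (d N : ℕ), 3 ≤ d → d - 2 ≤ N →
  (d : K) = 1 → Smooth K (F1 k d N)

/-- SM2 (100 lines), uses DER2.  The second equation is smooth if `d = 0` in `K`.  PROOF.  The derivative with
respect to `w_0` is `z ^ (d-1)`, so `z = 0`; that with respect to `y` is `x ^ (d-1)`, so `x = 0`; that with respect to `z` is `y ^ (d-1)`, so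
`y = 0`; that with respect to `x` is `w_1 ^ (d-1)`, so `w_1 = 0`; if `w_k = 0`, `k ≥ 1`, the derivative with respect to `w_k` is
`w_(k+1) ^ (d-1)` (`d ≥ 3`), so `w_(k+1) = 0`.  So only `w_0` is left, and `F = w_0 ^ d`. -/
def S_SM2 : Prop := ∀ (k K : Type) [Field k] [Field K] [Algebra k K] (d N : ℕ), 3 ≤ d → d - 2 ≤ N →
  (d : K) = 0 → Smooth K (F2 k d N)

/-- VFA (150 lines).  The sections.  PROOF.  Let `m = d - 3`, `ℓ` a linear form with `ℓ(q) = 1`, `γ : ℕ → K`.  Put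
`g (inr k) = γ_k a + γ_(k-1) β` (`γ_(-1) = 0`) for `k < d - 2`, `g (inr k) = v_k ℓ ^ (d-1)` for `k ≥ d - 2`, and
`g (inl i) = γ_m ρ_i + c₁ τ_i + c₂ τ'_i`.  The sum over `k < d - 2` telescopes:
`∑ (γ_k a + γ_(k-1) β) s^(d-1) (-β)^(d-1-k) a^k = γ_m s^(d-1) β² a^(d-2)` (induction on the upper bound:
the partial sum over `k < j` is `γ_(j-1) s^(d-1) (-β)^(d-j) a^j`), and the plane part is
`a^(d-2) γ_m (-s^(d-1) β²)`.
Case `a(q) ≠ 0`: choose `γ_k` by recursion such that `γ_k a(q) + γ_(k-1) β(q) = v_k`.  Evaluating the telescoping sum at `q`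
and with the condition on `v`: `a(q)^(d-2) (∑ v_i A_i(q) + γ_m s(q)^(d-1) β(q)²) = 0`, so `v - γ_m ρ(q)` (in the
plane) is orthogonal to `A(q)`: first hypothesis at `q`.
Case `a(q) = 0`: the condition on `v` says `v_0 s(q)^(d-1) (-β(q))^(d-1) = 0`, so `v_0 = 0`.  Take `γ_k = v_(k+1) / β(q)` for
`k < m` and `γ_m = c₃` from the second hypothesis at `q`. -/
def S_VFA : Prop := ∀ (K : Type) [Field K] (d N : ℕ), 3 ≤ d → d - 2 ≤ N →
  ∀ (a β : MvPolynomial (Fin 2) K) (f τ τ' ρ A : Fin 3 → MvPolynomial (Fin 2) K),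
  a.IsHomogeneous (d - 1) → β.IsHomogeneous (d - 1) → (∀ i, (τ i).IsHomogeneous (d - 1)) →
  (∀ i, (τ' i).IsHomogeneous (d - 1)) → (∀ i, (ρ i).IsHomogeneous (d - 1)) →
  ∑ i, τ i * A i = 0 → ∑ i, τ' i * A i = 0 → ∑ i, ρ i * A i = - (X 0 ^ (d - 1) * β ^ 2) →
  ∀ q : Fin 2 → K, q ≠ 0 →
  (∀ v : Fin 3 → K, ∑ i, v i * eval q (A i) = 0 → ∃ c c₁ c₂ : K, ∀ i, v i =
    c * eval q (f i) + c₁ * eval q (τ i) + c₂ * eval q (τ' i)) →
  (eval q a = 0 → q 0 ≠ 0 ∧ eval q β ≠ 0 ∧ ∀ v : Fin 3 → K, ∃ c c₁ c₂ c₃ : K, ∀ i, v i =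
    c * eval q (f i) + c₁ * eval q (τ i) + c₂ * eval q (τ' i) + c₃ * eval q (ρ i)) →
  ∀ v : Ix N → K,
  (∑ i : Fin 3, v (Sum.inl i) * eval q (a ^ (d - 2) * A i)) +
    (∑ k : Fin N, v (Sum.inr k) * eval q (if k.1 < d - 2 then
      X 0 ^ (d - 1) * (-β) ^ (d - 1 - k.1) * a ^ k.1 else 0)) = 0 →
  ∃ g : Ix N → MvPolynomial (Fin 2) K, (∀ i, (g i).IsHomogeneous (d - 1)) ∧
    (∑ i : Fin 3, g (Sum.inl i) * (a ^ (d - 2) * A i)) +
      (∑ k : Fin N, g (Sum.inr k) * (if k.1 < d - 2 then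
        X 0 ^ (d - 1) * (-β) ^ (d - 1 - k.1) * a ^ k.1 else 0)) = 0 ∧
    ∃ c : K, (∀ i, v (Sum.inl i) = eval q (g (Sum.inl i)) + c * eval q (f i)) ∧
      ∀ k, v (Sum.inr k) = eval q (g (Sum.inr k))

/-- CU1 (150 lines), uses DER1 and VFA (`theorem t_CU1 (h1 : S_DER1) (h2 : S_VFA) : S_CU1`).  Let `d = 1` in `K`.  The curve is
`f = (s a, t a, -b, 0, ..., 0)` with `a = t^(d-1) + s^(d-2) t`, `b = s^d`, `β = s^(d-1)`, of degree `e = d`.  `F(f) = 0`: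
`(s a)^d - s^d (t^(d-1) a^(d-1) + s^(d-2) t a^(d-1)) = s^d a^(d-1) (a - a)`.  No common zero: if `s a = t a = 0` then
`a = 0`, and `b = 0` gives `s = 0`, `a = t^(d-1) = 0`.  In `K`: `d = 1`, `d - 1 = 0`, `d - 2 = -1`.  The derivatives on the curve are
`a^(d-2) A`, `A = (s^(d-1) a + s^(2d-3) t, -s^(2d-2), a²)` (from DER1: `x`: `(s a)^(d-1) + (-s^d)(-(s a)^(d-3) t a)
= a^(d-2) (s^(d-1) a + s^(2d-3) t)`; `y`: `-s^d (s a)^(d-2)`; `z`: `a^(d-1) a`), and for `w_k`, `k < d - 2`: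
`(-s^d)^(d-1-k) (s a)^k = s^(d-1) (-β)^(d-1-k) a^k`; `0` for `k ≥ d - 2`.
Take `τ = ∂f/∂s = (a - s^(d-2) t, - s^(d-3) t², - s^(d-1))`, `τ' = ∂f/∂t = (s^(d-1), a + t s^(d-2), 0)`,
`ρ = (0, s^(d-1), 0)`.  At a point `q` (write `s, t, a` for the values): `f = s τ + t τ'`.
Orthogonal to `A(q)`: if `s ≠ 0`: `A₂ ≠ 0`, so `v₁` is determined by `v₀, v₂`, and `(v₀, v₂)` is a combination of those of
`τ'`: `(s^(d-1), 0)` and `τ`: `(.., -s^(d-1))`.  If `s = 0`: `t ≠ 0`, `a = t^(d-1) ≠ 0`, `A = (0, 0, a²)` (`d ≥ 3`), so `v₂ = 0`,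
and `f = (0, t a, 0)`, `τ = (a, *, 0)`.  Second hypothesis (`a = 0`): `s ≠ 0`, and
`f = (0, 0, -s^d)`, `τ' = (s^(d-1), *, 0)`, `ρ = (0, s^(d-1), 0)` span. -/
def S_CU1 : Prop := ∀ (k K : Type) [Field k] [Field K] [Algebra k K] (d N : ℕ), 3 ≤ d → d - 2 ≤ N →
  (d : K) = 1 → VeryFree K (F1 k d N)

/-- CU2 (150 lines), uses DER2 and VFA (`theorem t_CU2 (h1 : S_DER2) (h2 : S_VFA) : S_CU2`).  Let `d = 0` in `K`.  The curve is
`f = (s a, t a, -b, 0, ..., 0)` with `a = s^(d-1) + t^(d-1)`, `b = s^(d-1) t`, `β = s^(d-2) t`, `e = d`.  `F(f) = 0`: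
`-b a^(d-1) a + s^(d-1) a^(d-1) t a = 0`.  No common zero: `a = 0` and `b = 0` give `s = t = 0`.  In `K`: `d - 1 = -1`.  The derivatives on
the curve are `a^(d-2) A`, `A = (-s^(d-2) t^d, s^(d-1) (s^(d-1) + 2 t^(d-1)), a²)` (from DER2: `x`: `(-b) (-(s a)^(d-2)) -
(s a)^(d-2) t a = a^(d-2) s^(d-2) t (s^(d-1) - a)`; `y`: `(-b)(-(t a)^(d-2)) + (s a)^(d-1)`; `z`: `a^(d-1) a`), and for `w_k`,
`k < d - 2`: `(-b)^(d-1-k) (s a)^k = s^(d-1) (-β)^(d-1-k) a^k`; `0` for `k ≥ d - 2`.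
`∂f/∂s = (a - s^(d-1), - s^(d-2) t, s^(d-2) t) = t φ`, `φ = (t^(d-2), -s^(d-2), s^(d-2))`; `∂f/∂t = - s φ`.  Take `τ = s φ`,
`τ' = t φ`, `ρ = (-2 s^(d-2) t, - s^(d-3) t², 0)`.  (`φ · A = -s^(d-2) t^(2d-2) - s^(2d-3) (s^(d-1) + 2 t^(d-1)) + s^(d-2) a² = 0`,
`ρ · A = 2 s^(2d-4) t^(d+1) - s^(2d-4) t² (s^(d-1) + 2 t^(d-1)) ... = - s^(3d-5) t²`.)
Orthogonal to `A(q)` is spanned by `f(q)` and `φ(q)`: the vector product of `f` and `φ` is `(t a s^(d-2) - b s^(d-2), -b t^(d-2) -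
s a s^(d-2), -s a s^(d-2) - t a t^(d-2)) = -A`-multiple: precisely `f × φ = (s^(d-2) t^d, -s^(d-1)(s^(d-1) + 2 t^(d-1)), -a²) = -A`, and
`A(q) ≠ 0` (if `a = 0` then `s, t ≠ 0`).  Second hypothesis (`a = 0`; `s, t ≠ 0`): the determinant of
`f = (0, 0, -b)`, `φ`, `ρ` is `-b (-t^(d-2) s^(d-3) t² - 2 s^(2d-4) t) = -b s^(d-3) t (-t^(d-1) - 2 s^(d-1)) = b s^(d-3) t s^(d-1) ≠ 0` (use
`t^(d-1) = -s^(d-1)`). -/
def S_CU2 : Prop := ∀ (k K : Type) [Field k] [Field K] [Algebra k K] (d N : ℕ), 3 ≤ d → d - 2 ≤ N →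
  (d : K) = 0 → VeryFree K (F2 k d N)

/-- TRN (80 lines).  Renaming the coordinates.  (`rename`, `pderiv_rename`, `aeval_rename`.) -/
def S_TRN : Prop := ∀ (p : ℕ) [Fact p.Prime] (ι ι' : Type) [Fintype ι] [Fintype ι'] (d : ℕ), (ι ≃ ι') →
  Good p ι d → Good p ι' d

/-- LO1 (80 lines).  Hyperplanes: `F = x_0` (index set `Option (Fin (M + 2))`, `x_0 = X none`; `M + 2 = n`).  The curve
is the line `f = (0, s, t, 0, ...)`, `e = 1`; the derivative with respect to `x_0` is `1`, the others are `0`; `v` tangent means `v_0 = 0`;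
take `g` constant `= v`, `c = 0`. -/
def S_LO1 : Prop := ∀ (p : ℕ) [Fact p.Prime] (M : ℕ), Good p (Option (Fin (M + 2))) 1

/-- LO2 (150 lines).  Quadrics in characteristic two.  `n + 1 = 3 + N`.  `F = x z + y² + w_0 w_1 + w_2 w_3 + ...` for even `N` and
`F = x z + y² + y w_0 + w_1 w_2 + ...` for odd `N`.  The curve is the conic `f = (s², s t, t², 0, ...)`, `e = 2` (in characteristic
two `x z + y²` vanishes).  The derivatives on the curve: `x: t²`, `z: s²`, `y: 0`, `w_0: s t` if `N` is odd, the others `0`.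
For `v` with `v_x t² + v_z s² (+ v_0 s t) = 0` at `q` find linear forms `g`: all components with derivative zero are
arbitrary (take `v_i ℓ`, `ℓ(q) = 1`).  If `N` is even: `(g_x, g_z)` with `g_x t² + g_z s² = 0` are zero, but
`(v_x, v_z)` is proportional to `(s², t²)`, take `c`.  If `N` is odd: `(g_x, g_z, g_0) = (α s, δ t, α t + δ s)`
(characteristic two) with `α, δ ∈ K`, and `c (s², t², 0)`: these give all solutions of `v_x t² + v_z s² + v_0 s t = 0`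
(if `t ≠ 0`: choose `c`, `α`, `δ` ...: three unknowns, the space of solutions is 2-dimensional). -/
def S_LO2 : Prop := ∀ (N : ℕ), Good 2 (Ix N) 2

end Pool.Agent.H22S
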