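import Pool.Agent.H22S.Stm

set_option autoImplicit false

/-!
Project SR (helper22), piece TRN (helper95): renaming the coordinates.
-/

namespace Pool.Agent.H22S

open MvPolynomial

theorem t_TRN : S_TRN := by
  intro p _ ι ι' _ _ d e ⟨F, hF, hS, hV⟩
  have hpd : ∀ i : ι, pderiv (e i) (rename e F) = rename e (pderiv i F) :=
    fun i => pderiv_rename e.injective i F
  have hpd' : ∀ i' : ι', pderiv i' (rename e F) = rename e (pderiv (e.symm i') F) := by
    intro i'
    rw [← hpd, e.apply_symm_apply]
  refine ⟨rename e F, hF.rename_isHomogeneous, ?_, ?_⟩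
  · intro v hv hd
    rw [aeval_rename] at hv
    have h1 := hS (v ∘ e) hv (fun i => by
      have h2 := hd (e i)
      rwa [hpd, aeval_rename] at h2)
    funext i'
    have h2 := congrFun h1 (e.symm i')
    simpa using h2
  · obtain ⟨m, f, hm, hf, hne, h0, hg⟩ := hV
    have hcomp : (fun i' => f (e.symm i')) ∘ e = f := by
      funext i
      simp
    refine ⟨m, fun i' => f (e.symm i'), hm, fun i' => hf _, ?_, ?_, ?_⟩
    · intro q hq
      obtain ⟨i, hi⟩ := hne q hq
      exact ⟨e i, by simpa using hi⟩
    · rw [aeval_rename, hcomp]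
      exact h0
    · intro q hq v hv
      have hv' : ∑ i, (v ∘ e) i * eval q (aeval f (pderiv i F)) = 0 := by
        rw [← Equiv.sum_comp e] at hv
        rw [← hv]
        refine Finset.sum_congr rfl fun i _ => ?_
        rw [hpd, aeval_rename, hcomp]
        rfl
      obtain ⟨g, hg1, hg2, c, hc⟩ := hg q hq (v ∘ e) hv'
      refine ⟨fun i' => g (e.symm i'), fun i' => hg1 _, ?_, c, fun i' => ?_⟩
      · rw [← Equiv.sum_comp e, ← hg2]
        refine Finset.sum_congr rfl fun i _ => ?_
        rw [hpd, aeval_rename, hcomp]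
        show g (e.symm (e i)) * _ = _
        rw [e.symm_apply_apply]
      · have h2 := hc (e.symm i')
        simpa using h2

end Pool.Agent.H22S
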