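import Pool.Agent.H22S.Stm

/-!
# Project SR, piece VFA (helper46): the sections
-/

set_option autoImplicit false

namespace Pool.Agent.H22S

open MvPolynomial

theorem vfa_tele {R : Type} [CommRing R] (S a β : R) (δ : ℕ → R) (h0 : δ 0 = 0) (d j : ℕ)
    (hj : j + 1 ≤ d) :
    ∑ k ∈ Finset.range j, (δ (k + 1) * a + δ k * β) * (S * (-β) ^ (d - 1 - k) * a ^ k) =
      δ j * S * (-β) ^ (d - j) * a ^ j := by
  induction j with
  | zero => simp [h0]
  | succ j ih =>
    rw [Finset.sum_range_succ, ih (by omega)]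
    obtain ⟨e, he⟩ : ∃ e, d = j + 1 + e := ⟨d - (j + 1), by omega⟩
    have h1 : d - j = e + 1 := by omega
    have h2 : d - 1 - j = e := by omega
    have h3 : d - (j + 1) = e := by omega
    rw [h1, h2, h3]
    ring

theorem vfa_sum {R : Type} [CommRing R] (h : ℕ → R) (D N : ℕ) (hD : D ≤ N) :
    (∑ k : Fin N, if k.1 < D then h k.1 else 0) = ∑ k ∈ Finset.range D, h k := by
  rw [Fin.sum_univ_eq_sum_range (fun k => if k < D then h k else 0) N, ← Finset.sum_filter]
  congr 1
  ext k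
  simp only [Finset.mem_filter, Finset.mem_range]
  omega

theorem t_VFA : S_VFA := by
  intro K _ d N hd hN a β f τ τ' ρ A ha hβ hτ hτ' hρ h1 h2 h3 q hq H1 H2 v hv
  obtain ⟨vv, hvv⟩ : ∃ vv : ℕ → K, ∀ k : Fin N, v (Sum.inr k) = vv k.1 :=
    ⟨fun k => if h : k < N then v (Sum.inr ⟨k, h⟩) else 0, fun k => by simp⟩
  have hv2 : (∑ i : Fin 3, v (Sum.inl i) * (eval q a ^ (d - 2) * eval q (A i))) +
      ∑ k ∈ Finset.range (d - 2),
        vv k * (q 0 ^ (d - 1) * (-eval q β) ^ (d - 1 - k) * eval q a ^ k) = 0 := by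
    rw [← vfa_sum (fun k => vv k * (q 0 ^ (d - 1) * (-eval q β) ^ (d - 1 - k) * eval q a ^ k))
      (d - 2) N hN]
    refine Eq.trans ?_ hv
    congr 1
    · refine Finset.sum_congr rfl fun i _ => ?_
      rw [map_mul, map_pow]
    · refine Finset.sum_congr rfl fun k _ => ?_
      rw [hvv k]
      split_ifs with h
      · simp only [map_mul, map_pow, map_neg, eval_X]
      · rw [map_zero, mul_zero]
  have hρq : ∑ i : Fin 3, eval q (ρ i) * eval q (A i) = -(q 0 ^ (d - 1) * eval q β ^ 2) := by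
    have h4 := congrArg (eval q) h3
    simpa only [map_sum, map_mul, map_neg, map_pow, eval_X] using h4
  obtain ⟨δ, hδ0, hδ, c, c₁, c₂, hc⟩ : ∃ δ : ℕ → K, δ 0 = 0 ∧
      (∀ k, k < d - 2 → δ (k + 1) * eval q a + δ k * eval q β = vv k) ∧
      ∃ c c₁ c₂ : K, ∀ i, v (Sum.inl i) = δ (d - 2) * eval q (ρ i) + c₁ * eval q (τ i) +
        c₂ * eval q (τ' i) + c * eval q (f i) := by
    by_cases haq : eval q a = 0
    · obtain ⟨hq0, hβq, H2⟩ := H2 haq
      have hv0 : vv 0 = 0 := by
        have e1 : ∑ i : Fin 3, v (Sum.inl i) * (eval q a ^ (d - 2) * eval q (A i)) = 0 := by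
          refine Finset.sum_eq_zero fun i _ => ?_
          rw [haq, zero_pow (by omega : d - 2 ≠ 0), zero_mul, mul_zero]
        have e2 : ∑ k ∈ Finset.range (d - 2),
            vv k * (q 0 ^ (d - 1) * (-eval q β) ^ (d - 1 - k) * eval q a ^ k) =
            vv 0 * (q 0 ^ (d - 1) * (-eval q β) ^ (d - 1 - 0) * eval q a ^ 0) := by
          refine Finset.sum_eq_single 0 ?_ ?_
          · intro k _ hk
            rw [haq, zero_pow hk, mul_zero, mul_zero]
          · intro h
            exact absurd (Finset.mem_range.2 (by omega)) h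
        rw [e1, e2, zero_add, pow_zero, mul_one] at hv2
        exact (mul_eq_zero.1 hv2).resolve_right
          (mul_ne_zero (pow_ne_zero _ hq0) (pow_ne_zero _ (neg_ne_zero.2 hβq)))
      obtain ⟨c, c₁, c₂, c₃, hc⟩ := H2 (fun i => v (Sum.inl i))
      refine ⟨fun j => if j = d - 2 then c₃ else vv j / eval q β, ?_, ?_, c, c₁, c₂, ?_⟩
      · show (if 0 = d - 2 then c₃ else vv 0 / eval q β) = 0
        rw [if_neg (by omega), hv0, zero_div]
      · intro k hk
        show (if k + 1 = d - 2 then c₃ else vv (k + 1) / eval q β) * eval q a +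
          (if k = d - 2 then c₃ else vv k / eval q β) * eval q β = vv k
        rw [haq, mul_zero, zero_add, if_neg (by omega), div_mul_cancel₀ _ hβq]
      · intro i
        show v (Sum.inl i) = (if d - 2 = d - 2 then c₃ else vv (d - 2) / eval q β) * eval q (ρ i) +
          c₁ * eval q (τ i) + c₂ * eval q (τ' i) + c * eval q (f i)
        rw [if_pos rfl]
        have h4 := hc i
        have h5 : v (Sum.inl i) = c * eval q (f i) + c₁ * eval q (τ i) + c₂ * eval q (τ' i) +
          c₃ * eval q (ρ i) := h4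
        rw [h5]
        ring
    · obtain ⟨δ, hδ0, hδ⟩ : ∃ δ : ℕ → K, δ 0 = 0 ∧
          ∀ k, δ (k + 1) = (vv k - δ k * eval q β) / eval q a :=
        ⟨fun n => Nat.rec 0 (fun k x => (vv k - x * eval q β) / eval q a) n, rfl, fun k => rfl⟩
      have hδ' : ∀ k, δ (k + 1) * eval q a + δ k * eval q β = vv k := by
        intro k
        rw [hδ k, div_mul_cancel₀ _ haq]
        ring
      have ht := vfa_tele (q 0 ^ (d - 1)) (eval q a) (eval q β) δ hδ0 d (d - 2) (by omega)
      simp only [hδ'] at ht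
      have e2 : d - (d - 2) = 2 := by omega
      rw [e2] at ht
      rw [ht] at hv2
      have hort : ∑ i : Fin 3, (v (Sum.inl i) - δ (d - 2) * eval q (ρ i)) * eval q (A i) = 0 := by
        refine mul_left_cancel₀ (pow_ne_zero (d - 2) haq) ?_
        rw [Fin.sum_univ_three] at hv2 hρq ⊢
        linear_combination hv2 - eval q a ^ (d - 2) * δ (d - 2) * hρq
      obtain ⟨c, c₁, c₂, hc⟩ := H1 (fun i => v (Sum.inl i) - δ (d - 2) * eval q (ρ i)) hort
      refine ⟨δ, hδ0, fun k _ => hδ' k, c, c₁, c₂, fun i => ?_⟩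
      have h4 : v (Sum.inl i) - δ (d - 2) * eval q (ρ i) =
        c * eval q (f i) + c₁ * eval q (τ i) + c₂ * eval q (τ' i) := hc i
      linear_combination h4
  obtain ⟨i0, hi0⟩ : ∃ i, q i ≠ 0 := by
    by_contra h
    exact hq (funext fun i => by_contra fun hi => h ⟨i, hi⟩)
  obtain ⟨l, hl, hlq⟩ : ∃ l : MvPolynomial (Fin 2) K, l.IsHomogeneous (d - 1) ∧ eval q l = 1 := by
    refine ⟨(C (q i0)⁻¹ * X i0) ^ (d - 1), ?_, ?_⟩
    · have h4 := ((isHomogeneous_X K i0).C_mul (q i0)⁻¹).pow (d - 1)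
      rwa [one_mul] at h4
    · rw [map_pow, map_mul, eval_C, eval_X, inv_mul_cancel₀ hi0, one_pow]
  refine ⟨Sum.elim (fun i => C (δ (d - 2)) * ρ i + C c₁ * τ i + C c₂ * τ' i)
    (fun k => if k.1 < d - 2 then C (δ (k.1 + 1)) * a + C (δ k.1) * β else C (v (Sum.inr k)) * l),
    ?_, ?_, c, ?_, ?_⟩
  · rintro (i | k)
    · exact (((hρ i).C_mul _).add ((hτ i).C_mul _)).add ((hτ' i).C_mul _)
    · show (if k.1 < d - 2 then C (δ (k.1 + 1)) * a + C (δ k.1) * β
        else C (v (Sum.inr k)) * l).IsHomogeneous (d - 1)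
      split_ifs with h
      · exact (ha.C_mul _).add (hβ.C_mul _)
      · exact hl.C_mul _
  · have e1 : ∑ k : Fin N, (if k.1 < d - 2 then C (δ (k.1 + 1)) * a + C (δ k.1) * β
        else C (v (Sum.inr k)) * l) * (if k.1 < d - 2 then
        X 0 ^ (d - 1) * (-β) ^ (d - 1 - k.1) * a ^ k.1 else 0) =
        C (δ (d - 2)) * X 0 ^ (d - 1) * (-β) ^ (d - (d - 2)) * a ^ (d - 2) := by
      rw [← vfa_tele (X 0 ^ (d - 1)) a β (fun j => C (δ j)) (by simp [hδ0]) d (d - 2) (by omega),
        ← vfa_sum (fun k => (C (δ (k + 1)) * a + C (δ k) * β) *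
          (X 0 ^ (d - 1) * (-β) ^ (d - 1 - k) * a ^ k)) (d - 2) N hN]
      refine Finset.sum_congr rfl fun k _ => ?_
      split_ifs with h
      · rfl
      · rw [mul_zero]
    have e2 : d - (d - 2) = 2 := by omega
    rw [e2] at e1
    simp only [Sum.elim_inl, Sum.elim_inr]
    rw [e1]
    rw [Fin.sum_univ_three] at h1 h2 h3 ⊢
    linear_combination a ^ (d - 2) * (C (δ (d - 2)) * h3 + C c₁ * h1 + C c₂ * h2)
  · intro i
    simp only [Sum.elim_inl, map_add, map_mul, eval_C]
    exact hc i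
  · intro k
    simp only [Sum.elim_inr]
    split_ifs with h
    · rw [map_add, map_mul, map_mul, eval_C, eval_C, hδ k.1 h, hvv k]
    · rw [map_mul, eval_C, hlq, mul_one]

end Pool.Agent.H22S
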